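import Mathlib

/-!
# Superpositions of Gaussians: the radial profile

`prof ν c s r = ∫ c ω * exp (-(s ω) r) dν` for a measure space, `c` integrable, `s` bounded.
The profile is smooth, the derivatives are `prof` with `c ω * (-(s ω))^k`, and for
`re s ≥ σ` and `r ≥ 0` the `k`-th derivative is at most `S^k e^{-σ r} ∫ |c|`.
-/

open MeasureTheory Complex Filter Topology

namespace CE48

variable {Ω : Type*} [MeasurableSpace Ω]

/-- The radial profile of a superposition of Gaussians. -/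
noncomputable def prof (ν : Measure Ω) (c s : Ω → ℂ) (r : ℝ) : ℂ :=
  ∫ ω, c ω * cexp (-(s ω) * r) ∂ν

theorem norm_cexp_le_of (z : ℂ) (r S : ℝ) (h : ‖z‖ ≤ S) :
    ‖cexp (-z * r)‖ ≤ Real.exp (S * |r|) := by
  rw [Complex.norm_exp]
  apply Real.exp_le_exp.2
  have h1 : (-z * (r : ℂ)).re ≤ ‖-z * (r : ℂ)‖ := Complex.re_le_norm _
  refine h1.trans ?_
  rw [norm_mul, norm_neg, Complex.norm_real, Real.norm_eq_abs]
  exact mul_le_mul_of_nonneg_right h (abs_nonneg r)

theorem norm_cexp_le_of' (z : ℂ) (r σ : ℝ) (h : σ ≤ z.re) (hr : 0 ≤ r) :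
    ‖cexp (-z * r)‖ ≤ Real.exp (-σ * r) := by
  rw [Complex.norm_exp]
  apply Real.exp_le_exp.2
  have : (-z * (r : ℂ)).re = -z.re * r := by simp
  rw [this]
  nlinarith

theorem prof_aesm {ν : Measure Ω} {c s : Ω → ℂ} (hc : Integrable c ν) (hs : Measurable s)
    (r : ℝ) : AEStronglyMeasurable (fun ω => c ω * cexp (-(s ω) * r)) ν := by
  refine hc.1.mul ?_
  exact (Complex.measurable_exp.comp ((hs.neg).mul_const _)).aestronglyMeasurable

theorem prof_integrable {ν : Measure Ω} {c s : Ω → ℂ} (hc : Integrable c ν) (hs : Measurable s)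
    {S : ℝ} (hS : ∀ ω, ‖s ω‖ ≤ S) (r : ℝ) :
    Integrable (fun ω => c ω * cexp (-(s ω) * r)) ν := by
  refine Integrable.mono' (hc.norm.mul_const (Real.exp (S * |r|))) (prof_aesm hc hs r) ?_
  refine Filter.Eventually.of_forall fun ω => ?_
  rw [norm_mul]
  exact mul_le_mul_of_nonneg_left (norm_cexp_le_of _ _ _ (hS ω)) (norm_nonneg _)

theorem coeff_integrable {ν : Measure Ω} {c s : Ω → ℂ} (hc : Integrable c ν) (hs : Measurable s)
    {S : ℝ} (hS : ∀ ω, ‖s ω‖ ≤ S) : Integrable (fun ω => c ω * (-(s ω))) ν := by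
  refine Integrable.mono' (hc.norm.mul_const S) (hc.1.mul hs.neg.aestronglyMeasurable) ?_
  refine Filter.Eventually.of_forall fun ω => ?_
  rw [norm_mul, norm_neg]
  exact mul_le_mul_of_nonneg_left (hS ω) (norm_nonneg _)

theorem prof_hasDerivAt {ν : Measure Ω} {c s : Ω → ℂ} (hc : Integrable c ν) (hs : Measurable s)
    {S : ℝ} (hS : ∀ ω, ‖s ω‖ ≤ S) (r : ℝ) :
    HasDerivAt (prof ν c s) (prof ν (fun ω => c ω * (-(s ω))) s r) r := by
  rcases isEmpty_or_nonempty Ω with hE | ⟨⟨ω0⟩⟩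
  · have h0 : ∀ (c : Ω → ℂ) (r : ℝ), prof ν c s r = 0 := by
      intro c r
      unfold prof
      have : ν = 0 := by
        ext A hA
        simp [Set.eq_empty_of_isEmpty A]
      simp [this]
    have h1 : prof ν c s = fun _ => (0 : ℂ) := by
      funext r; exact h0 c r
    rw [h1, h0]
    exact hasDerivAt_const r (0 : ℂ)
  have hS0 : 0 ≤ S := (norm_nonneg _).trans (hS ω0)
  have key := hasDerivAt_integral_of_dominated_loc_of_deriv_le (μ := ν) (𝕜 := ℝ)
    (F := fun r ω => c ω * cexp (-(s ω) * (r : ℂ)))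
    (F' := fun r ω => c ω * (-(s ω)) * cexp (-(s ω) * (r : ℂ)))
    (x₀ := r) (s := Metric.ball r 1)
    (bound := fun ω => ‖c ω‖ * (S * Real.exp (S * (|r| + 1))))
    (Metric.ball_mem_nhds r one_pos)
    (Filter.Eventually.of_forall fun r' => prof_aesm hc hs r')
    (prof_integrable hc hs hS r)
    (prof_aesm (coeff_integrable hc hs hS) hs r)
    (Filter.Eventually.of_forall fun ω x hx => by
      rw [norm_mul, norm_mul, norm_neg, mul_assoc]
      refine mul_le_mul_of_nonneg_left ?_ (norm_nonneg _)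
      refine mul_le_mul (hS ω) ?_ (norm_nonneg _) hS0
      refine (norm_cexp_le_of _ _ _ (hS ω)).trans ?_
      apply Real.exp_le_exp.2
      refine mul_le_mul_of_nonneg_left ?_ hS0
      have h1 : |x - r| < 1 := by simpa [Real.dist_eq] using Metric.mem_ball.1 hx
      have h2 : |x| ≤ |x - r| + |r| := by
        have := abs_add_le (x - r) r
        simpa using this
      linarith)
    (hc.norm.mul_const _)
    (Filter.Eventually.of_forall fun ω x _ => by
      have h1 : HasDerivAt (fun x : ℝ => -(s ω) * (x : ℂ)) (-(s ω) * 1) x :=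
        (Complex.ofRealCLM.hasDerivAt (x := x)).const_mul (-(s ω))
      have h2 := (h1.cexp).const_mul (c ω)
      refine h2.congr_deriv ?_
      ring)
  exact key.2

/-- Coefficients of the `k`-th derivative. -/
noncomputable def ck (c s : Ω → ℂ) (k : ℕ) : Ω → ℂ := fun ω => c ω * (-(s ω)) ^ k

omit [MeasurableSpace Ω] in
theorem ck_succ (c s : Ω → ℂ) (k : ℕ) :
    ck c s (k + 1) = fun ω => ck c s k ω * (-(s ω)) := by
  funext ω
  unfold ck
  rw [pow_succ, mul_assoc]

theorem ck_integrable {ν : Measure Ω} {c s : Ω → ℂ} (hc : Integrable c ν) (hs : Measurable s)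
    {S : ℝ} (hS : ∀ ω, ‖s ω‖ ≤ S) (k : ℕ) : Integrable (ck c s k) ν := by
  induction k with
  | zero =>
    have : ck c s 0 = c := by funext ω; simp [ck]
    rw [this]; exact hc
  | succ k ih =>
    rw [ck_succ]
    exact coeff_integrable ih hs hS

theorem iteratedDeriv_prof {ν : Measure Ω} {c s : Ω → ℂ} (hc : Integrable c ν)
    (hs : Measurable s) {S : ℝ} (hS : ∀ ω, ‖s ω‖ ≤ S) (k : ℕ) :
    iteratedDeriv k (prof ν c s) = prof ν (ck c s k) s := by
  induction k with
  | zero =>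
    have : ck c s 0 = c := by funext ω; simp [ck]
    rw [this, iteratedDeriv_zero]
  | succ k ih =>
    rw [iteratedDeriv_succ, ih, ck_succ]
    funext r
    exact (prof_hasDerivAt (ck_integrable hc hs hS k) hs hS r).deriv

theorem contDiff_prof {ν : Measure Ω} {c s : Ω → ℂ} (hc : Integrable c ν)
    (hs : Measurable s) {S : ℝ} (hS : ∀ ω, ‖s ω‖ ≤ S) (n : ℕ∞) :
    ContDiff ℝ n (prof ν c s) := by
  apply contDiff_of_differentiable_iteratedDeriv
  intro m _
  rw [iteratedDeriv_prof hc hs hS m]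
  exact fun r => (prof_hasDerivAt (ck_integrable hc hs hS m) hs hS r).differentiableAt

theorem norm_prof_le {ν : Measure Ω} {c s : Ω → ℂ} (hc : Integrable c ν)
    {σ : ℝ} (hσ : ∀ ω, σ ≤ (s ω).re) {r : ℝ} (hr : 0 ≤ r) :
    ‖prof ν c s r‖ ≤ (∫ ω, ‖c ω‖ ∂ν) * Real.exp (-σ * r) := by
  unfold prof
  rw [← integral_mul_const]
  refine norm_integral_le_of_norm_le (hc.norm.mul_const _) ?_
  refine Filter.Eventually.of_forall fun ω => ?_
  rw [norm_mul]
  exact mul_le_mul_of_nonneg_left (norm_cexp_le_of' _ _ _ (hσ ω) hr) (norm_nonneg _)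

theorem norm_iteratedFDeriv_prof_le {ν : Measure Ω} {c s : Ω → ℂ} (hc : Integrable c ν)
    (hs : Measurable s) {S σ : ℝ} (hS : ∀ ω, ‖s ω‖ ≤ S)
    (hσ : ∀ ω, σ ≤ (s ω).re) {r : ℝ} (hr : 0 ≤ r) (k : ℕ) :
    ‖iteratedFDeriv ℝ k (prof ν c s) r‖ ≤
      S ^ k * (∫ ω, ‖c ω‖ ∂ν) * Real.exp (-σ * r) := by
  rw [norm_iteratedFDeriv_eq_norm_iteratedDeriv, iteratedDeriv_prof hc hs hS k]
  refine (norm_prof_le (ck_integrable hc hs hS k) hσ hr).trans ?_
  refine mul_le_mul_of_nonneg_right ?_ (Real.exp_pos _).le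
  rw [← integral_const_mul]
  refine integral_mono (ck_integrable hc hs hS k).norm (hc.norm.const_mul _) ?_
  intro ω
  simp only [ck, norm_mul, norm_pow, norm_neg]
  rw [mul_comm]
  exact mul_le_mul_of_nonneg_right (pow_le_pow_left₀ (norm_nonneg _) (hS ω) k) (norm_nonneg _)

end CE48
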