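import Mathlib
import Pool.Agent.Helper48.CE.Prof

/-!
# Superpositions of Gaussians are Schwartz functions with the expected Fourier transform

For an arbitrary (s-finite) measure space `Ω`, an integrable coefficient `c` and a measurable
parameter `s` with `σ ≤ re s`, `|s| ≤ S` (`σ > 0`), the function
`x ↦ ∫ c e^{-s ‖x‖²}` on the plane is a Schwartz function, and its Fourier transform is
`ξ ↦ ∫ (π / s) c e^{-(π² / s) ‖ξ‖²}`.
-/

open MeasureTheory Complex Filter Topology SchwartzMap FourierTransform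
open scoped RealInnerProductSpace Nat

namespace CE48

/-- The plane. -/
abbrev Pl := EuclideanSpace ℝ (Fin 2)

variable {Ω : Type*} [MeasurableSpace Ω]

theorem exp_bound (σ : ℝ) (hσ : 0 < σ) (N : ℕ) (x : ℝ) (hx : 0 ≤ x) :
    (1 + x) ^ N * Real.exp (-σ * x ^ 2) ≤ (N ! : ℝ) * Real.exp (1 + 1 / (4 * σ)) := by
  have h1 : (1 + x) ^ N ≤ (N ! : ℝ) * Real.exp (1 + x) := by
    have := Real.pow_div_factorial_le_exp (1 + x) (by linarith) N
    rw [div_le_iff₀ (by positivity)] at this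
    linarith
  have h2 : (1 + x) + (-σ * x ^ 2) ≤ 1 + 1 / (4 * σ) := by
    have : 0 ≤ σ * (x - 1 / (2 * σ)) ^ 2 := by positivity
    have h3 : σ * (x - 1 / (2 * σ)) ^ 2 = σ * x ^ 2 - x + 1 / (4 * σ) := by
      field_simp
      ring
    linarith
  calc (1 + x) ^ N * Real.exp (-σ * x ^ 2)
      ≤ ((N ! : ℝ) * Real.exp (1 + x)) * Real.exp (-σ * x ^ 2) :=
        mul_le_mul_of_nonneg_right h1 (Real.exp_pos _).le
    _ = (N ! : ℝ) * Real.exp ((1 + x) + (-σ * x ^ 2)) := by rw [mul_assoc, ← Real.exp_add]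
    _ ≤ _ := by
        refine mul_le_mul_of_nonneg_left (Real.exp_le_exp.2 h2) (by positivity)

/-- The superposition of Gaussians as a Schwartz function. -/
noncomputable def gsup (ν : Measure Ω) (c s : Ω → ℂ) (hc : Integrable c ν) (hs : Measurable s)
    (S σ : ℝ) (hS : ∀ ω, ‖s ω‖ ≤ S) (hσ0 : 0 < σ) (hσ : ∀ ω, σ ≤ (s ω).re) : 𝓢(Pl, ℂ) where
  toFun := fun x => prof ν c s (‖x‖ ^ 2)
  smooth' := by
    have h1 : ContDiff ℝ ((⊤ : ℕ∞) : WithTop ℕ∞) (prof ν c s) := contDiff_prof hc hs hS ⊤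
    exact h1.comp (contDiff_norm_sq ℝ)
  decay' := by
    intro k n
    rcases isEmpty_or_nonempty Ω with hE | ⟨⟨ω0⟩⟩
    · have hν : ν = 0 := by
        ext A hA
        simp [Set.eq_empty_of_isEmpty A]
      refine ⟨0, fun x => ?_⟩
      have h0 : (fun x : Pl => prof ν c s (‖x‖ ^ 2)) = fun _ => (0 : ℂ) := by
        funext x
        simp [prof, hν]
      rw [h0]
      have : iteratedFDeriv ℝ n (fun _ : Pl => (0 : ℂ)) = 0 := by
        exact iteratedFDeriv_fun_zero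
      rw [this]
      simp
    obtain ⟨l, C, hC0, hC⟩ :=
      (Function.hasTemperateGrowth_norm_sq (H := Pl)).norm_iteratedFDeriv_le_uniform n
    have hS0 : 0 ≤ S := (norm_nonneg _).trans (hS ω0)
    set I := ∫ ω, ‖c ω‖ ∂ν with hI
    have hI0 : 0 ≤ I := integral_nonneg fun _ => norm_nonneg _
    set N := k + l * n with hN
    refine ⟨((n ! : ℝ) * ((1 + S) ^ n * I) * (1 + C) ^ n) *
      ((N ! : ℝ) * Real.exp (1 + 1 / (4 * σ))), fun x => ?_⟩
    have hD : ∀ i, 1 ≤ i → i ≤ n →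
        ‖iteratedFDeriv ℝ i (fun x : Pl => ‖x‖ ^ 2) x‖ ≤ ((1 + C) * (1 + ‖x‖) ^ l) ^ i := by
      intro i hi1 hin
      refine (hC i hin x).trans ?_
      have hi0 : i ≠ 0 := by omega
      rw [mul_pow]
      have hx1 : (1 : ℝ) ≤ (1 + ‖x‖) ^ l :=
        one_le_pow₀ (by linarith [norm_nonneg x])
      refine mul_le_mul ?_ (le_self_pow₀ hx1 hi0) (by positivity) (by positivity)
      calc C ≤ 1 + C := by linarith
        _ ≤ (1 + C) ^ i := le_self_pow₀ (by linarith) hi0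
    have hG : ∀ i ≤ n, ‖iteratedFDeriv ℝ i (prof ν c s) (‖x‖ ^ 2)‖ ≤
        (1 + S) ^ n * I * Real.exp (-σ * ‖x‖ ^ 2) := by
      intro i hin
      refine (norm_iteratedFDeriv_prof_le hc hs hS hσ (sq_nonneg _) i).trans ?_
      refine mul_le_mul_of_nonneg_right ?_ (Real.exp_pos _).le
      refine mul_le_mul_of_nonneg_right ?_ hI0
      calc S ^ i ≤ (1 + S) ^ i := pow_le_pow_left₀ hS0 (by linarith) i
        _ ≤ (1 + S) ^ n := pow_le_pow_right₀ (by linarith) hin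
    have key := norm_iteratedFDeriv_comp_le (n := n) (N := ((⊤ : ℕ∞) : WithTop ℕ∞))
      (contDiff_prof hc hs hS ⊤ : ContDiff ℝ ((⊤ : ℕ∞) : WithTop ℕ∞) (prof ν c s))
      (contDiff_norm_sq ℝ (E := Pl) : ContDiff ℝ ((⊤ : ℕ∞) : WithTop ℕ∞) (fun x : Pl => ‖x‖ ^ 2))
      (mod_cast le_top) x hG hD
    have hcomp : (prof ν c s) ∘ (fun x : Pl => ‖x‖ ^ 2) = fun x => prof ν c s (‖x‖ ^ 2) := rfl
    rw [hcomp] at key
    have hxk : ‖x‖ ^ k ≤ (1 + ‖x‖) ^ k :=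
      pow_le_pow_left₀ (norm_nonneg _) (by linarith) k
    calc ‖x‖ ^ k * ‖iteratedFDeriv ℝ n (fun x : Pl => prof ν c s (‖x‖ ^ 2)) x‖
        ≤ (1 + ‖x‖) ^ k * ((n ! : ℝ) * ((1 + S) ^ n * I * Real.exp (-σ * ‖x‖ ^ 2)) *
          ((1 + C) * (1 + ‖x‖) ^ l) ^ n) :=
          mul_le_mul hxk key (norm_nonneg _) (by positivity)
      _ = ((n ! : ℝ) * ((1 + S) ^ n * I) * (1 + C) ^ n) *
          ((1 + ‖x‖) ^ N * Real.exp (-σ * ‖x‖ ^ 2)) := by
          rw [mul_pow, ← pow_mul, hN, pow_add]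
          ring
      _ ≤ _ := by
          refine mul_le_mul_of_nonneg_left (exp_bound σ hσ0 N ‖x‖ (norm_nonneg x)) ?_
          positivity

@[simp] theorem gsup_apply (ν : Measure Ω) (c s : Ω → ℂ) (hc : Integrable c ν)
    (hs : Measurable s) (S σ : ℝ) (hS : ∀ ω, ‖s ω‖ ≤ S) (hσ0 : 0 < σ)
    (hσ : ∀ ω, σ ≤ (s ω).re) (x : Pl) :
    gsup ν c s hc hs S σ hS hσ0 hσ x = ∫ ω, c ω * cexp (-(s ω) * (‖x‖ ^ 2 : ℝ)) ∂ν := rfl

/-- The Fourier transform of one Gaussian. -/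
theorem fourier_one (b : ℂ) (hb : 0 < b.re) (ξ : Pl) :
    𝓕 (fun x : Pl => cexp (-b * (‖x‖ ^ 2 : ℝ))) ξ =
      (Real.pi / b) * cexp (-(Real.pi ^ 2 / b) * (‖ξ‖ ^ 2 : ℝ)) := by
  have h := fourier_gaussian_innerProductSpace (V := Pl) hb ξ
  have h1 : (fun x : Pl => cexp (-b * (‖x‖ ^ 2 : ℝ))) = fun v : Pl => cexp (-b * ‖v‖ ^ 2) := by
    funext x
    push_cast
    rfl
  rw [h1, h]
  have h2 : ((Module.finrank ℝ Pl : ℂ) / 2) = 1 := by
    rw [finrank_euclideanSpace]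
    simp
  rw [h2, Complex.cpow_one]
  congr 2
  push_cast
  ring

theorem fourier_one' (b : ℂ) (hb : 0 < b.re) (ξ : Pl) :
    ∫ x : Pl, Real.fourierChar (-⟪x, ξ⟫) • cexp (-b * (‖x‖ ^ 2 : ℝ)) =
      (Real.pi / b) * cexp (-(Real.pi ^ 2 / b) * (‖ξ‖ ^ 2 : ℝ)) := by
  rw [← fourier_one b hb ξ, Real.fourier_eq]

theorem integrable_gauss (σ : ℝ) (hσ0 : 0 < σ) :
    Integrable (fun x : Pl => Real.exp (-σ * ‖x‖ ^ 2)) := by
  have h := GaussianFourier.integrable_cexp_neg_mul_sq_norm_add (V := Pl) (b := (σ : ℂ))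
    (by simpa using hσ0) 0 0
  have h2 := h.norm
  refine h2.congr (Filter.Eventually.of_forall fun x => ?_)
  simp only [Complex.norm_exp]
  congr 1
  simp [← Complex.ofReal_pow]

/-- The Fourier transform of a superposition of Gaussians. -/
theorem fourier_gsup (ν : Measure Ω) [SFinite ν] (c s : Ω → ℂ) (hc : Integrable c ν)
    (hs : Measurable s) (S σ : ℝ) (hS : ∀ ω, ‖s ω‖ ≤ S) (hσ0 : 0 < σ)
    (hσ : ∀ ω, σ ≤ (s ω).re) (ξ : Pl) :
    𝓕 (gsup ν c s hc hs S σ hS hσ0 hσ) ξ =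
      ∫ ω, c ω * ((Real.pi / s ω) * cexp (-(Real.pi ^ 2 / s ω) * (‖ξ‖ ^ 2 : ℝ))) ∂ν := by
  rw [SchwartzMap.fourier_coe, Real.fourier_eq]
  have hsm : Measurable (fun p : Pl × Ω => cexp (-(s p.2) * (‖p.1‖ ^ 2 : ℝ))) := by
    fun_prop
  have hchar : Measurable (fun p : Pl × Ω => (Real.fourierChar (-⟪p.1, ξ⟫) : ℂ)) := by
    have : Continuous (fun x : Pl => (Real.fourierChar (-⟪x, ξ⟫) : ℂ)) := by
      fun_prop
    exact this.measurable.comp measurable_fst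
  have hint : Integrable (fun p : Pl × Ω =>
      (Real.fourierChar (-⟪p.1, ξ⟫) : ℂ) * (c p.2 * cexp (-(s p.2) * (‖p.1‖ ^ 2 : ℝ))))
      (volume.prod ν) := by
    have hb : Integrable (fun p : Pl × Ω => Real.exp (-σ * ‖p.1‖ ^ 2) * ‖c p.2‖)
        (volume.prod ν) := (integrable_gauss σ hσ0).mul_prod hc.norm
    refine Integrable.mono' hb ?_ (Filter.Eventually.of_forall fun p => ?_)
    · refine hchar.aestronglyMeasurable.mul ?_
      exact (hc.1.comp_snd).mul hsm.aestronglyMeasurable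
    · rw [norm_mul, Circle.norm_coe, one_mul, norm_mul, mul_comm]
      exact mul_le_mul_of_nonneg_right
        (norm_cexp_le_of' _ _ _ (hσ p.2) (sq_nonneg _)) (norm_nonneg _)
  have hL : ∀ x : Pl, Real.fourierChar (-⟪x, ξ⟫) • (gsup ν c s hc hs S σ hS hσ0 hσ x) =
      ∫ ω, (Real.fourierChar (-⟪x, ξ⟫) : ℂ) * (c ω * cexp (-(s ω) * (‖x‖ ^ 2 : ℝ))) ∂ν := by
    intro x
    rw [gsup_apply, integral_const_mul]
    rfl
  simp_rw [hL]
  rw [integral_integral_swap hint]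
  refine integral_congr_ae (Filter.Eventually.of_forall fun ω => ?_)
  have hpos : 0 < (s ω).re := lt_of_lt_of_le hσ0 (hσ ω)
  have h3 := fourier_one' (s ω) hpos ξ
  simp only
  rw [← h3, ← integral_const_mul]
  refine integral_congr_ae (Filter.Eventually.of_forall fun x => ?_)
  simp only [Circle.smul_def, smul_eq_mul]
  ring

end CE48
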