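import Mathlib
import Pool.Agent.Helper48.CE.Gsup

/-!
# The real part of a superposition of Gaussians

`f = Re ∫ c e^{-s ‖x‖²}` is a real Schwartz function on the plane, and its Fourier transform is
`Re ∫ (π / s) c e^{-(π² / s) ‖ξ‖²}`.
-/

open MeasureTheory Complex Filter Topology SchwartzMap FourierTransform
open scoped RealInnerProductSpace Nat

namespace CE48

variable {Ω : Type*} [MeasurableSpace Ω]

/-- The real part of a complex Schwartz function. -/
noncomputable def reS (g : 𝓢(Pl, ℂ)) : 𝓢(Pl, ℝ) := SchwartzMap.postcompCLM Complex.reCLM g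

@[simp] theorem reS_apply (g : 𝓢(Pl, ℂ)) (x : Pl) : reS g x = (g x).re := rfl

theorem fourier_conj (g : 𝓢(Pl, ℂ)) (ξ : Pl) :
    𝓕 (fun x : Pl => (starRingEnd ℂ) (g x)) ξ = (starRingEnd ℂ) (𝓕 (fun x : Pl => g x) (-ξ)) := by
  rw [Real.fourier_eq, Real.fourier_eq, ← integral_conj]
  refine integral_congr_ae (Filter.Eventually.of_forall fun x => ?_)
  simp only [Circle.smul_def, smul_eq_mul, map_mul, inner_neg_right, neg_neg]
  congr 1
  rw [← Circle.coe_inv_eq_conj, ← AddChar.map_neg_eq_inv]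

theorem fourier_reS (g : 𝓢(Pl, ℂ)) (hev : ∀ ξ, 𝓕 g (-ξ) = 𝓕 g ξ) (ξ : Pl) :
    𝓕 (fun x : Pl => ((reS g x : ℝ) : ℂ)) ξ = (((𝓕 g ξ).re : ℝ) : ℂ) := by
  have h1 : (fun x : Pl => ((reS g x : ℝ) : ℂ)) =
      fun x : Pl => (1 / 2 : ℂ) • (g x + (starRingEnd ℂ) (g x)) := by
    funext x
    rw [reS_apply, Complex.add_conj, smul_eq_mul]
    push_cast
    ring
  have hg : Integrable (fun x : Pl => g x) := g.integrable
  have hg' : Integrable (fun x : Pl => (starRingEnd ℂ) (g x)) := by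
    refine hg.norm.mono' ?_ (Filter.Eventually.of_forall fun x => ?_)
    · exact Complex.continuous_conj.comp_aestronglyMeasurable hg.1
    · simp
  have h2 : 𝓕 (fun x : Pl => (1 / 2 : ℂ) • (g x + (starRingEnd ℂ) (g x))) ξ =
      (1 / 2 : ℂ) * (𝓕 (fun x : Pl => g x) ξ + 𝓕 (fun x : Pl => (starRingEnd ℂ) (g x)) ξ) := by
    rw [Real.fourier_eq, Real.fourier_eq, Real.fourier_eq]
    rw [← integral_add, ← integral_const_mul]
    · refine integral_congr_ae (Filter.Eventually.of_forall fun x => ?_)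
      simp only [Circle.smul_def, smul_eq_mul]
      ring
    · exact (Real.fourierIntegral_convergent_iff (μ := volume) ξ).2 hg
    · exact (Real.fourierIntegral_convergent_iff (μ := volume) ξ).2 hg'
  rw [h1, h2, fourier_conj]
  have h3 : 𝓕 (fun x : Pl => g x) = fun ξ => 𝓕 g ξ := by
    rw [← SchwartzMap.fourier_coe]
  simp only [h3]
  rw [hev, Complex.add_conj]
  push_cast
  ring

/-- **Superpositions of Gaussians, real version.** -/
theorem gsup_real (ν : Measure Ω) [SFinite ν] (c s : Ω → ℂ) (hc : Integrable c ν)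
    (hs : Measurable s) (S σ : ℝ) (hS : ∀ ω, ‖s ω‖ ≤ S) (hσ0 : 0 < σ)
    (hσ : ∀ ω, σ ≤ (s ω).re) :
    ∃ f : 𝓢(Pl, ℝ),
      (∀ x, f x = (∫ ω, c ω * cexp (-(s ω) * (‖x‖ ^ 2 : ℝ)) ∂ν).re) ∧
      ∀ ξ, 𝓕 (fun x : Pl => ((f x : ℝ) : ℂ)) ξ =
        (((∫ ω, c ω * ((Real.pi / s ω) * cexp (-(Real.pi ^ 2 / s ω) * (‖ξ‖ ^ 2 : ℝ))) ∂ν).re
          : ℝ) : ℂ) := by
  refine ⟨reS (gsup ν c s hc hs S σ hS hσ0 hσ), fun x => rfl, fun ξ => ?_⟩
  rw [fourier_reS, fourier_gsup]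
  intro ξ
  rw [fourier_gsup, fourier_gsup, norm_neg]

end CE48
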