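import Mathlib
import Pool.Agent.Helper32.CE.Fin
import Pool.Agent.Helper48.CE.GsupR

/-!
# From radial profiles to the sharpness of the planar Cohn-Elkies bound

With `μ = 2π/√3` and the variable `n = (√3/2) ‖x‖²` (self dual scaling; `n = ‖x‖²` when the
minimal distance is one), a superposition `∫ c e^{i μ w n}` has the Fourier transform
`∫ c (i/w) e^{-i μ n / w}`.  `fin` reduces the problem to sign conditions for the two real
functions `G`, `H` of one variable.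
-/

open MeasureTheory Complex Filter Topology SchwartzMap FourierTransform
open Pool.Agent.Helper32.CE (Adm ft lb red)

namespace CE48

/-- `μ = 2π/√3`. -/
noncomputable def mu : ℝ := 2 * Real.pi / √3

theorem mu_pos : 0 < mu := by unfold mu; positivity

theorem mu_mul : mu * (√3 / 2) = Real.pi := by
  unfold mu
  have : (√3 : ℝ) ≠ 0 := by positivity
  field_simp

variable {Ω : Type*} [MeasurableSpace Ω]

/-- The profile `∫ c e^{i μ w n}`. -/
noncomputable def gpr (ν : Measure Ω) (c w : Ω → ℂ) (n : ℝ) : ℂ :=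
  ∫ ω, c ω * cexp (I * mu * w ω * n) ∂ν

/-- The profile of the Fourier transform, `∫ c (i/w) e^{-i μ n/w}`. -/
noncomputable def hpr (ν : Measure Ω) (c w : Ω → ℂ) (n : ℝ) : ℂ :=
  ∫ ω, c ω * (I / w ω * cexp (-(I * mu * n / w ω))) ∂ν

/-- A superposition of Gaussians, in the self dual scaling. -/
theorem profile_schwartz (ν : Measure Ω) [SFinite ν] (c w : Ω → ℂ) (hc : Integrable c ν)
    (hw : Measurable w) (W y0 : ℝ) (hW : ∀ ω, ‖w ω‖ ≤ W) (hy0 : 0 < y0)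
    (hy : ∀ ω, y0 ≤ (w ω).im) :
    ∃ f : 𝓢(Pl, ℝ),
      (∀ x, f x = (gpr ν c w (√3 / 2 * ‖x‖ ^ 2)).re) ∧
      ∀ ξ, 𝓕 (fun x : Pl => ((f x : ℝ) : ℂ)) ξ =
        (((hpr ν c w (√3 / 2 * ‖ξ‖ ^ 2)).re : ℝ) : ℂ) := by
  have hpi : (Real.pi : ℂ) ≠ 0 := by exact_mod_cast Real.pi_ne_zero
  have hw0 : ∀ ω, w ω ≠ 0 := by
    intro ω h
    have := hy ω
    rw [h] at this
    simp at this
    linarith
  have hm : ∀ r : ℝ, (mu : ℂ) * ((√3 / 2 * r : ℝ) : ℂ) = (Real.pi : ℂ) * (r : ℂ) := by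
    intro r
    have : mu * (√3 / 2 * r) = Real.pi * r := by rw [← mul_assoc, mu_mul]
    exact_mod_cast this
  obtain ⟨f, h1, h2⟩ := gsup_real ν c (fun ω => -(I * Real.pi * w ω)) hc
    ((hw.const_mul (I * (Real.pi : ℂ))).neg) (Real.pi * W) (Real.pi * y0)
    (fun ω => by
      rw [norm_neg, norm_mul, norm_mul, norm_I, one_mul, Complex.norm_real,
        Real.norm_of_nonneg Real.pi_pos.le]
      exact mul_le_mul_of_nonneg_left (hW ω) Real.pi_pos.le)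
    (mul_pos Real.pi_pos hy0)
    (fun ω => by
      have : (-(I * (Real.pi : ℂ) * w ω)).re = Real.pi * (w ω).im := by
        simp [Complex.mul_re, Complex.mul_im]
      rw [this]
      exact mul_le_mul_of_nonneg_left (hy ω) Real.pi_pos.le)
  refine ⟨f, fun x => ?_, fun ξ => ?_⟩
  · rw [h1 x]
    congr 1
    unfold gpr
    refine integral_congr_ae (Filter.Eventually.of_forall fun ω => ?_)
    simp only
    congr 2
    have := hm (‖x‖ ^ 2)
    calc -(-(I * (Real.pi : ℂ) * w ω)) * ((‖x‖ ^ 2 : ℝ) : ℂ)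
        = I * w ω * ((Real.pi : ℂ) * ((‖x‖ ^ 2 : ℝ) : ℂ)) := by ring
      _ = I * w ω * ((mu : ℂ) * ((√3 / 2 * ‖x‖ ^ 2 : ℝ) : ℂ)) := by rw [this]
      _ = _ := by ring
  · rw [h2 ξ]
    congr 2
    unfold hpr
    refine integral_congr_ae (Filter.Eventually.of_forall fun ω => ?_)
    simp only
    have hk := hm (‖ξ‖ ^ 2)
    have e1 : (Real.pi : ℂ) / -(I * Real.pi * w ω) = I / w ω := by
      have := hw0 ω
      rw [neg_eq_neg_one_mul]
      field_simp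
      rw [I_sq]
    have e2 : -((Real.pi : ℂ) ^ 2 / -(I * Real.pi * w ω)) * ((‖ξ‖ ^ 2 : ℝ) : ℂ) =
        -(I * mu * ((√3 / 2 * ‖ξ‖ ^ 2 : ℝ) : ℂ) / w ω) := by
      calc -((Real.pi : ℂ) ^ 2 / -(I * Real.pi * w ω)) * ((‖ξ‖ ^ 2 : ℝ) : ℂ)
          = -(((Real.pi : ℂ) / -(I * Real.pi * w ω)) *
              ((Real.pi : ℂ) * ((‖ξ‖ ^ 2 : ℝ) : ℂ))) := by ring
        _ = -(I / w ω * ((mu : ℂ) * ((√3 / 2 * ‖ξ‖ ^ 2 : ℝ) : ℂ))) := by rw [e1, hk]
        _ = _ := by ring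
    rw [e1, e2]

/-- **Reduction to two real functions of one variable.** -/
theorem fin (ν : Measure Ω) [SFinite ν] (c w : Ω → ℂ) (hc : Integrable c ν)
    (hw : Measurable w) (W y0 : ℝ) (hW : ∀ ω, ‖w ω‖ ≤ W) (hy0 : 0 < y0)
    (hy : ∀ ω, y0 ≤ (w ω).im)
    (h1 : ∀ n : ℝ, 1 ≤ n → (gpr ν c w n).re ≤ 0)
    (h2 : ∀ n : ℝ, 0 ≤ n → 0 ≤ (hpr ν c w n).re)
    (h3 : 0 < (hpr ν c w 0).re)
    (z1 : ∀ a b : ℤ, (a ≠ 0 ∨ b ≠ 0) →
      (gpr ν c w ((a : ℝ) ^ 2 + a * b + (b : ℝ) ^ 2)).re = 0)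
    (z2 : ∀ a b : ℤ, (a ≠ 0 ∨ b ≠ 0) →
      (hpr ν c w ((a : ℝ) ^ 2 + a * b + (b : ℝ) ^ 2)).re = 0) :
    (∃ f : 𝓢(Pl, ℝ), Adm f ∧ f 0 / (ft f 0).re = 2 / √3) ∧
      ∀ f : 𝓢(Pl, ℝ), Adm f → 2 / √3 ≤ f 0 / (ft f 0).re := by
  refine ⟨?_, fun f hf => lb f hf⟩
  obtain ⟨f, hf1, hf2⟩ := profile_schwartz ν c w hc hw W y0 hW hy0 hy
  have h30 : (0 : ℝ) < √3 := by positivity
  have hn : ∀ t : ℝ, √3 / 2 * (2 / √3 * t) = t := by
    intro t
    field_simp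
  have hg : ((f.postcompCLM Complex.ofRealCLM : 𝓢(Pl, ℂ)) : Pl → ℂ) =
      fun x : Pl => ((f x : ℝ) : ℂ) := rfl
  refine red (f.postcompCLM Complex.ofRealCLM) ?_ ?_ ?_ ?_ ?_ ?_
  · intro x
    rw [SchwartzMap.postcompCLM_apply]
    simp
  · intro x hx
    rw [SchwartzMap.postcompCLM_apply]
    simp only [Complex.ofRealCLM_apply, Complex.ofReal_re]
    rw [hf1]
    apply h1
    have := mul_le_mul_of_nonneg_left hx (by positivity : (0 : ℝ) ≤ √3 / 2)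
    have e : √3 / 2 * (2 / √3) = 1 := by field_simp
    rwa [e] at this
  · intro ξ
    rw [hg, hf2]
    refine ⟨Complex.ofReal_im _, ?_⟩
    rw [Complex.ofReal_re]
    exact h2 _ (by positivity)
  · rw [hg, hf2, Complex.ofReal_re]
    simpa using h3
  · intro x a b hab hx
    rw [SchwartzMap.postcompCLM_apply]
    simp only [Complex.ofRealCLM_apply]
    rw [hf1, hx, hn, z1 a b hab]
    simp
  · intro x a b hab hx
    rw [hg, hf2, hx, hn, z2 a b hab]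
    simp

end CE48
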