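import Mathlib
import Pool.Agent.Helper48.CE.Fin

/-!
# Pairs of radial profiles related by the Fourier transform

`Pair G H`: there is a complex Schwartz function on the plane with the radial profile `G` and
whose Fourier transform has the radial profile `H` (variable `n = (√3/2) ‖x‖²`).
-/

open MeasureTheory Complex Filter Topology SchwartzMap FourierTransform
open Pool.Agent.Helper32.CE (Adm ft lb red)

namespace CE48

/-- Two radial profiles related by the Fourier transform of a Schwartz function. -/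
def Pair (G H : ℝ → ℂ) : Prop :=
  ∃ g : 𝓢(Pl, ℂ), (∀ x : Pl, g x = G (√3 / 2 * ‖x‖ ^ 2)) ∧
    ∀ ξ : Pl, 𝓕 g ξ = H (√3 / 2 * ‖ξ‖ ^ 2)

theorem Pair.zero : Pair (fun _ => 0) (fun _ => 0) := by
  refine ⟨0, fun x => rfl, fun ξ => ?_⟩
  have : 𝓕 (0 : 𝓢(Pl, ℂ)) = 0 := by
    rw [← SchwartzMap.fourierTransformCLM_apply ℂ]
    exact map_zero _
  rw [this]
  rfl

theorem Pair.add {G H G' H' : ℝ → ℂ} (h : Pair G H) (h' : Pair G' H') :
    Pair (fun n => G n + G' n) (fun n => H n + H' n) := by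
  obtain ⟨g, h1, h2⟩ := h
  obtain ⟨g', h1', h2'⟩ := h'
  refine ⟨g + g', fun x => ?_, fun ξ => ?_⟩
  · rw [_root_.add_apply, h1, h1']
  · rw [FourierTransform.fourier_add, _root_.add_apply, h2, h2']

theorem Pair.smul {G H : ℝ → ℂ} (h : Pair G H) (a : ℂ) :
    Pair (fun n => a * G n) (fun n => a * H n) := by
  obtain ⟨g, h1, h2⟩ := h
  refine ⟨a • g, fun x => ?_, fun ξ => ?_⟩
  · rw [_root_.smul_apply, h1, smul_eq_mul]
  · rw [FourierTransform.fourier_smul, _root_.smul_apply, h2, smul_eq_mul]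

theorem Pair.congr {G H G' H' : ℝ → ℂ} (h : Pair G H) (h1 : ∀ n, 0 ≤ n → G n = G' n)
    (h2 : ∀ n, 0 ≤ n → H n = H' n) : Pair G' H' := by
  obtain ⟨g, e1, e2⟩ := h
  refine ⟨g, fun x => ?_, fun ξ => ?_⟩
  · rw [e1, h1 _ (by positivity)]
  · rw [e2, h2 _ (by positivity)]

theorem Pair.neg {G H : ℝ → ℂ} (h : Pair G H) : Pair (fun n => -G n) (fun n => -H n) := by
  refine (h.smul (-1)).congr (fun n _ => by ring) (fun n _ => by ring)

theorem Pair.sub {G H G' H' : ℝ → ℂ} (h : Pair G H) (h' : Pair G' H') :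
    Pair (fun n => G n - G' n) (fun n => H n - H' n) := by
  refine (h.add h'.neg).congr (fun n _ => by ring) (fun n _ => by ring)

theorem Pair.sum {ι : Type*} (t : Finset ι) {G H : ι → ℝ → ℂ} (h : ∀ i ∈ t, Pair (G i) (H i)) :
    Pair (fun n => ∑ i ∈ t, G i n) (fun n => ∑ i ∈ t, H i n) := by
  classical
  induction t using Finset.induction_on with
  | empty => simpa using Pair.zero
  | insert a t ha ih =>
    have h1 := (h a (Finset.mem_insert_self a t)).add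
      (ih fun i hi => h i (Finset.mem_insert_of_mem hi))
    refine h1.congr (fun n _ => ?_) (fun n _ => ?_) <;> rw [Finset.sum_insert ha]

/-- The Fourier transform is an involution on radial functions. -/
theorem Pair.swap {G H : ℝ → ℂ} (h : Pair G H) : Pair H G := by
  obtain ⟨g, h1, h2⟩ := h
  refine ⟨𝓕 g, h2, fun ξ => ?_⟩
  have e : 𝓕⁻ (𝓕 g) = g := FourierTransform.fourierInv_fourier_eq g
  have e2 : 𝓕⁻ (𝓕 g) (-ξ) = 𝓕 (𝓕 g) ξ := by
    rw [SchwartzMap.fourierInv_coe, SchwartzMap.fourier_coe (𝓕 g)]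
    rw [Real.fourierInv_eq_fourier_neg, neg_neg]
  rw [← e2, e, h1, norm_neg]

/-- Superpositions of Gaussians give pairs. -/
theorem pair_gpr {Ω : Type*} [MeasurableSpace Ω] (ν : Measure Ω) [SFinite ν] (c w : Ω → ℂ)
    (hc : Integrable c ν)
    (hw : Measurable w) (W y0 : ℝ) (hW : ∀ ω, ‖w ω‖ ≤ W) (hy0 : 0 < y0)
    (hy : ∀ ω, y0 ≤ (w ω).im) : Pair (gpr ν c w) (hpr ν c w) := by
  have hpi : (Real.pi : ℂ) ≠ 0 := by exact_mod_cast Real.pi_ne_zero
  have hw0 : ∀ ω, w ω ≠ 0 := by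
    intro ω h
    have := hy ω
    rw [h] at this
    simp at this
    linarith
  have hm : ∀ r : ℝ, (mu : ℂ) * ((√3 / 2 * r : ℝ) : ℂ) = (Real.pi : ℂ) * (r : ℂ) := by
    intro r
    have : mu * (√3 / 2 * r) = Real.pi * r := by rw [← mul_assoc, mu_mul]
    exact_mod_cast this
  have hs : Measurable (fun ω => -(I * Real.pi * w ω)) := (hw.const_mul (I * (Real.pi : ℂ))).neg
  have hS : ∀ ω, ‖-(I * (Real.pi : ℂ) * w ω)‖ ≤ Real.pi * W := fun ω => by
      rw [norm_neg, norm_mul, norm_mul, norm_I, one_mul, Complex.norm_real,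
        Real.norm_of_nonneg Real.pi_pos.le]
      exact mul_le_mul_of_nonneg_left (hW ω) Real.pi_pos.le
  have hσ : ∀ ω, Real.pi * y0 ≤ (-(I * (Real.pi : ℂ) * w ω)).re := fun ω => by
      have : (-(I * (Real.pi : ℂ) * w ω)).re = Real.pi * (w ω).im := by
        simp [Complex.mul_re, Complex.mul_im]
      rw [this]
      exact mul_le_mul_of_nonneg_left (hy ω) Real.pi_pos.le
  refine ⟨gsup ν c (fun ω => -(I * Real.pi * w ω)) hc hs (Real.pi * W) (Real.pi * y0) hS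
    (mul_pos Real.pi_pos hy0) hσ, fun x => ?_, fun ξ => ?_⟩
  · rw [gsup_apply]
    unfold gpr
    refine integral_congr_ae (Filter.Eventually.of_forall fun ω => ?_)
    simp only
    congr 2
    have := hm (‖x‖ ^ 2)
    calc -(-(I * (Real.pi : ℂ) * w ω)) * ((‖x‖ ^ 2 : ℝ) : ℂ)
        = I * w ω * ((Real.pi : ℂ) * ((‖x‖ ^ 2 : ℝ) : ℂ)) := by ring
      _ = I * w ω * ((mu : ℂ) * ((√3 / 2 * ‖x‖ ^ 2 : ℝ) : ℂ)) := by rw [this]
      _ = _ := by ring
  · rw [fourier_gsup]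
    unfold hpr
    refine integral_congr_ae (Filter.Eventually.of_forall fun ω => ?_)
    simp only
    have hk := hm (‖ξ‖ ^ 2)
    have e1 : (Real.pi : ℂ) / -(I * Real.pi * w ω) = I / w ω := by
      have := hw0 ω
      rw [neg_eq_neg_one_mul]
      field_simp
      rw [I_sq]
    have e2 : -((Real.pi : ℂ) ^ 2 / -(I * Real.pi * w ω)) * ((‖ξ‖ ^ 2 : ℝ) : ℂ) =
        -(I * mu * ((√3 / 2 * ‖ξ‖ ^ 2 : ℝ) : ℂ) / w ω) := by
      calc -((Real.pi : ℂ) ^ 2 / -(I * Real.pi * w ω)) * ((‖ξ‖ ^ 2 : ℝ) : ℂ)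
          = -(((Real.pi : ℂ) / -(I * Real.pi * w ω)) *
              ((Real.pi : ℂ) * ((‖ξ‖ ^ 2 : ℝ) : ℂ))) := by ring
        _ = -(I / w ω * ((mu : ℂ) * ((√3 / 2 * ‖ξ‖ ^ 2 : ℝ) : ℂ))) := by rw [e1, hk]
        _ = _ := by ring
    rw [e1, e2]

/-- One Gaussian. -/
theorem pair_one (w : ℂ) (hw : 0 < w.im) :
    Pair (fun n => cexp (I * mu * w * n)) (fun n => I / w * cexp (-(I * mu * n / w))) := by
  have h := pair_gpr (Ω := Unit) (Measure.dirac ()) (fun _ => 1) (fun _ => w)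
    (integrable_const _) measurable_const ‖w‖ w.im (fun _ => le_rfl) hw (fun _ => le_rfl)
  refine h.congr (fun n _ => ?_) (fun n _ => ?_)
  · simp [gpr]
  · simp [hpr]

/-- **The final reduction for pairs.** -/
theorem fin_pair (G H : ℝ → ℂ) (h : Pair G H)
    (h1 : ∀ n : ℝ, 1 ≤ n → (G n).re ≤ 0)
    (h2 : ∀ n : ℝ, 0 ≤ n → 0 ≤ (H n).re)
    (h3 : 0 < (H 0).re)
    (z1 : ∀ a b : ℤ, (a ≠ 0 ∨ b ≠ 0) → (G ((a : ℝ) ^ 2 + a * b + (b : ℝ) ^ 2)).re = 0)
    (z2 : ∀ a b : ℤ, (a ≠ 0 ∨ b ≠ 0) → (H ((a : ℝ) ^ 2 + a * b + (b : ℝ) ^ 2)).re = 0) :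
    (∃ f : 𝓢(Pl, ℝ), Adm f ∧ f 0 / (ft f 0).re = 2 / √3) ∧
      ∀ f : 𝓢(Pl, ℝ), Adm f → 2 / √3 ≤ f 0 / (ft f 0).re := by
  refine ⟨?_, fun f hf => lb f hf⟩
  obtain ⟨g, hg1, hg2⟩ := h
  have hev : ∀ ξ, 𝓕 g (-ξ) = 𝓕 g ξ := fun ξ => by rw [hg2, hg2, norm_neg]
  set f : 𝓢(Pl, ℝ) := reS g with hf
  have hf1 : ∀ x, f x = (G (√3 / 2 * ‖x‖ ^ 2)).re := fun x => by
    rw [hf, reS_apply, hg1]
  have hf2 : ∀ ξ, 𝓕 (fun x : Pl => ((f x : ℝ) : ℂ)) ξ =
      (((H (√3 / 2 * ‖ξ‖ ^ 2)).re : ℝ) : ℂ) := fun ξ => by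
    rw [hf, fourier_reS g hev, hg2]
  have h30 : (0 : ℝ) < √3 := by positivity
  have hn : ∀ t : ℝ, √3 / 2 * (2 / √3 * t) = t := by
    intro t
    field_simp
  have hgc : ((f.postcompCLM Complex.ofRealCLM : 𝓢(Pl, ℂ)) : Pl → ℂ) =
      fun x : Pl => ((f x : ℝ) : ℂ) := rfl
  refine red (f.postcompCLM Complex.ofRealCLM) ?_ ?_ ?_ ?_ ?_ ?_
  · intro x
    rw [SchwartzMap.postcompCLM_apply]
    simp
  · intro x hx
    rw [SchwartzMap.postcompCLM_apply]
    simp only [Complex.ofRealCLM_apply, Complex.ofReal_re]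
    rw [hf1]
    apply h1
    have := mul_le_mul_of_nonneg_left hx (by positivity : (0 : ℝ) ≤ √3 / 2)
    have e : √3 / 2 * (2 / √3) = 1 := by field_simp
    rwa [e] at this
  · intro ξ
    rw [hgc, hf2]
    refine ⟨Complex.ofReal_im _, ?_⟩
    rw [Complex.ofReal_re]
    exact h2 _ (by positivity)
  · rw [hgc, hf2, Complex.ofReal_re]
    simpa using h3
  · intro x a b hab hx
    rw [SchwartzMap.postcompCLM_apply]
    simp only [Complex.ofRealCLM_apply]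
    rw [hf1, hx, hn, z1 a b hab]
    simp
  · intro x a b hab hx
    rw [hgc, hf2, hx, hn, z2 a b hab]
    simp

end CE48
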