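import Mathlib
import Pool.Agent.Helper48.CE.Pair

/-!
# Laguerre functions

`lag k X = ∑_{i ≤ k} C(k,i) (-X)^i / i!`.  Generating function
`∑ lag k X t^k = (1 - t)⁻¹ exp(-X t / (1 - t))`, and the Fourier pairs
`(L_k(2 μ n) e^{-μ n}, (-1)^k L_k(2 μ n) e^{-μ n})`.
-/

open MeasureTheory Complex Filter Topology
open scoped Nat

namespace CE48

/-- The Laguerre polynomials. -/
noncomputable def lag (k : ℕ) (X : ℂ) : ℂ :=
  ∑ i ∈ Finset.range (k + 1), (k.choose i : ℂ) * ((-X) ^ i / (i ! : ℂ))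

theorem hs_choose {𝕜 : Type*} [NormedField 𝕜] [CompleteSpace 𝕜] (i : ℕ) {t : 𝕜} (ht : ‖t‖ < 1) :
    HasSum (fun n : ℕ => (n.choose i : 𝕜) * t ^ n) (t ^ i * (1 / (1 - t) ^ (i + 1))) := by
  have h := (hasSum_choose_mul_geometric_of_norm_lt_one i ht).mul_left (t ^ i)
  have h2 : HasSum (fun n : ℕ => ((n + i).choose i : 𝕜) * t ^ (n + i))
      (t ^ i * (1 / (1 - t) ^ (i + 1)) -
        ∑ j ∈ Finset.range i, ((j.choose i : ℕ) : 𝕜) * t ^ j) := by
    have h0 : ∑ j ∈ Finset.range i, ((j.choose i : ℕ) : 𝕜) * t ^ j = 0 := by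
      refine Finset.sum_eq_zero fun j hj => ?_
      rw [Nat.choose_eq_zero_of_lt (Finset.mem_range.1 hj)]
      simp
    rw [h0, sub_zero]
    have h3 : (fun n : ℕ => ((n + i).choose i : 𝕜) * t ^ (n + i)) =
        fun n : ℕ => t ^ i * (((n + i).choose i : 𝕜) * t ^ n) := by
      funext n
      rw [pow_add]
      ring
    rw [h3]
    exact h
  exact (hasSum_nat_add_iff' i).1 h2

/-- The double array. -/
noncomputable def arr (X t : ℂ) (p : ℕ × ℕ) : ℂ :=
  ((-X) ^ p.1 / (p.1 ! : ℂ)) * ((p.2.choose p.1 : ℂ) * t ^ p.2)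

theorem arr_summable (X t : ℂ) (ht : ‖t‖ < 1) : Summable (arr X t) := by
  refine Summable.of_norm ?_
  rw [summable_prod_of_nonneg (fun p => norm_nonneg _)]
  have hn : ∀ i n : ℕ, ‖arr X t (i, n)‖ = (‖X‖ ^ i / (i ! : ℝ)) * ((n.choose i : ℝ) * ‖t‖ ^ n) := by
    intro i n
    simp [arr]
  have ht' : ‖(‖t‖ : ℝ)‖ < 1 := by simpa using ht
  have hi : ∀ i : ℕ, HasSum (fun n => ‖arr X t (i, n)‖)
      ((‖X‖ ^ i / (i ! : ℝ)) * (‖t‖ ^ i * (1 / (1 - ‖t‖) ^ (i + 1)))) := by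
    intro i
    simp_rw [hn]
    exact (hs_choose i ht').mul_left _
  refine ⟨fun i => (hi i).summable, ?_⟩
  have e : (fun i => ∑' n, ‖arr X t (i, n)‖) =
      fun i => (1 / (1 - ‖t‖)) * ((‖X‖ * ‖t‖ / (1 - ‖t‖)) ^ i / (i ! : ℝ)) := by
    funext i
    rw [(hi i).tsum_eq]
    have : (1 - ‖t‖) ≠ 0 := by
      have := ht
      intro h
      linarith
    rw [div_pow, mul_pow, pow_succ]
    field_simp
  rw [e]
  exact (Real.summable_pow_div_factorial _).mul_left _

theorem lag_eq_tsum (k : ℕ) (X : ℂ) (t : ℂ) :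
    HasSum (fun i => arr X t (i, k)) (t ^ k * lag k X) := by
  have h : ∀ i ∉ Finset.range (k + 1), arr X t (i, k) = 0 := by
    intro i hi
    have : k < i := by
      rw [Finset.mem_range] at hi
      omega
    simp [arr, Nat.choose_eq_zero_of_lt this]
  have h2 : HasSum (fun i => arr X t (i, k)) (∑ b ∈ Finset.range (k + 1), arr X t (b, k)) :=
    hasSum_sum_of_ne_finset_zero h
  have e : ∑ b ∈ Finset.range (k + 1), arr X t (b, k) = t ^ k * lag k X := by
    unfold lag arr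
    rw [Finset.mul_sum]
    refine Finset.sum_congr rfl fun i _ => ?_
    ring
  rwa [e] at h2

/-- The generating function. -/
theorem lag_gen (X t : ℂ) (ht : ‖t‖ < 1) :
    HasSum (fun k => t ^ k * lag k X) ((1 - t)⁻¹ * cexp (-X * t / (1 - t))) := by
  have hs := arr_summable X t ht
  have h1t : (1 - t) ≠ 0 := by
    intro h
    have : t = 1 := (sub_eq_zero.1 h).symm
    rw [this] at ht
    simp at ht
  have h1 : HasSum (fun i => ((-X) ^ i / (i ! : ℂ)) * (t ^ i * (1 / (1 - t) ^ (i + 1))))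
      (∑' p, arr X t p) := by
    refine hs.hasSum.prod_fiberwise fun i => ?_
    exact (hs_choose i ht).mul_left _
  have h2 : HasSum (fun i => ((-X) ^ i / (i ! : ℂ)) * (t ^ i * (1 / (1 - t) ^ (i + 1))))
      ((1 - t)⁻¹ * cexp (-X * t / (1 - t))) := by
    have h3 := (NormedSpace.expSeries_div_hasSum_exp (𝔸 := ℂ) (-X * t / (1 - t))).mul_left
      ((1 - t)⁻¹)
    rw [← Complex.exp_eq_exp_ℂ] at h3
    have h4 : (fun i : ℕ => ((-X) ^ i / (i ! : ℂ)) * (t ^ i * (1 / (1 - t) ^ (i + 1)))) =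
        fun i : ℕ => (1 - t)⁻¹ * ((-X * t / (1 - t)) ^ i / (i ! : ℂ)) := by
      funext i
      have hf : (i ! : ℂ) ≠ 0 := by exact_mod_cast Nat.factorial_ne_zero i
      rw [div_pow, mul_pow, pow_succ]
      field_simp
    rw [h4]
    exact h3
  have e := h1.unique h2
  have hs' : HasSum (fun p : ℕ × ℕ => arr X t p.swap) (∑' p, arr X t p) := by
    exact (Equiv.prodComm ℕ ℕ).hasSum_iff.2 hs.hasSum
  rw [← e]
  exact hs'.prod_fiberwise fun k => lag_eq_tsum k X t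

end CE48
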