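import Mathlib
import Pool.Agent.Helper48.CE.Pair

/-!
# Series of cardinal functions

`KK L τ κ p n = ∫_{-L}^{L} κ(θ) e^{i μ w (n - p)} dθ`, `w = θ/μ + i τ`, and its transform
`KH L τ κ p n = ∫ κ(θ) (i/w) e^{-i μ n/w} e^{-i μ w p} dθ`.  Absolutely convergent series of
such functions form Fourier pairs.
-/

open MeasureTheory Complex Filter Topology

namespace CE48

/-- The segment `w = θ/μ + i τ`. -/
noncomputable def wt (τ θ : ℝ) : ℂ := (θ / mu : ℝ) + I * τ

theorem wt_im (τ θ : ℝ) : (wt τ θ).im = τ := by simp [wt]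

theorem wt_re (τ θ : ℝ) : (wt τ θ).re = θ / mu := by
  simp [wt]

theorem wt_cont (τ : ℝ) : Continuous (wt τ) := by
  unfold wt
  fun_prop

theorem wt_ne (τ θ : ℝ) (hτ : 0 < τ) : wt τ θ ≠ 0 := by
  intro h
  have := wt_im τ θ
  rw [h] at this
  simp at this
  linarith

theorem wt_normSq (τ θ : ℝ) : ‖wt τ θ‖ ^ 2 = (θ / mu) ^ 2 + τ ^ 2 := by
  rw [← Complex.normSq_eq_norm_sq, Complex.normSq_apply, wt_re, wt_im]
  ring

theorem wt_exp (τ θ x : ℝ) :
    I * mu * wt τ θ * x = I * θ * x + ((-(mu * τ * x) : ℝ) : ℂ) := by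
  have hmu : (mu : ℂ) ≠ 0 := by exact_mod_cast mu_pos.ne'
  unfold wt
  push_cast
  have : I * mu * (θ / mu + I * τ) * x = I * (mu * (θ / mu)) * x + (I ^ 2) * mu * τ * x := by ring
  rw [this, mul_div_cancel₀ _ hmu, I_sq]
  ring

theorem norm_wt_exp (τ θ x : ℝ) : ‖cexp (I * mu * wt τ θ * x)‖ = Real.exp (-(mu * τ * x)) := by
  rw [wt_exp, Complex.exp_add, norm_mul]
  have : I * θ * x = ((θ * x : ℝ) : ℂ) * I := by push_cast; ring
  rw [this, Complex.norm_exp_ofReal_mul_I, one_mul, ← Complex.ofReal_exp, Complex.norm_real,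
    Real.norm_of_nonneg (Real.exp_pos _).le]

/-- A cardinal function. -/
noncomputable def KK (L τ : ℝ) (κ : ℝ → ℂ) (p n : ℝ) : ℂ :=
  ∫ θ in (-L)..L, κ θ * cexp (I * mu * wt τ θ * (n - p : ℝ))

/-- The transform of a cardinal function. -/
noncomputable def KH (L τ : ℝ) (κ : ℝ → ℂ) (p n : ℝ) : ℂ :=
  ∫ θ in (-L)..L, κ θ * cexp (I * mu * wt τ θ * (-p : ℝ)) *
    (I / wt τ θ * cexp (-(I * mu * n / wt τ θ)))

theorem KK_eq (L τ : ℝ) (κ : ℝ → ℂ) (p n : ℝ) :
    KK L τ κ p n = (∫ θ in (-L)..L, κ θ * cexp (I * θ * (n - p : ℝ))) *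
      (Real.exp (-(mu * τ * (n - p))) : ℝ) := by
  unfold KK
  rw [← intervalIntegral.integral_mul_const]
  refine intervalIntegral.integral_congr fun θ _ => ?_
  rw [wt_exp, Complex.exp_add, Complex.ofReal_exp]
  ring

theorem norm_hpr_factor (τ θ n : ℝ) (hτ : 0 < τ) :
    ‖I / wt τ θ * cexp (-(I * mu * n / wt τ θ))‖ =
      (1 / ‖wt τ θ‖) * Real.exp (-(mu * n * (τ / ((θ / mu) ^ 2 + τ ^ 2)))) := by
  have hw := wt_ne τ θ hτ
  rw [norm_mul, norm_div, norm_I, Complex.norm_exp]
  congr 2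
  have hns : Complex.normSq (wt τ θ) = (θ / mu) ^ 2 + τ ^ 2 := by
    rw [Complex.normSq_eq_norm_sq, wt_normSq]
  have e : -(I * mu * n / wt τ θ) = ((mu * n : ℝ) : ℂ) * (-(I / wt τ θ)) := by
    push_cast
    ring
  rw [e, Complex.re_ofReal_mul, Complex.neg_re, Complex.div_re, hns, wt_re, wt_im]
  simp

theorem KK_congr (L τ : ℝ) (κ : ℝ → ℂ) (p n : ℝ) :
    KK L τ κ p n = ∫ θ in (-L)..L, (κ θ * cexp (I * mu * wt τ θ * (-p : ℝ))) *
      cexp (I * mu * wt τ θ * n) := by
  unfold KK
  refine intervalIntegral.integral_congr fun θ _ => ?_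
  have : cexp (I * mu * wt τ θ * (n - p : ℝ)) =
      cexp (I * mu * wt τ θ * (-p : ℝ)) * cexp (I * mu * wt τ θ * n) := by
    rw [← Complex.exp_add]
    congr 1
    push_cast
    ring
  rw [this]
  ring

/-- A pointwise absolutely convergent series of measurable functions, dominated by a summable
sequence of constants, on a finite measure space. -/
theorem series_integrable {ι : Type*} [Countable ι] {ν : Measure ℝ} [IsFiniteMeasure ν]
    (g : ι → ℝ → ℂ) (hg : ∀ j, Measurable (g j)) (b : ι → ℝ) (hs : Summable b)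
    (hgb : ∀ j θ, ‖g j θ‖ ≤ b j) : Integrable (fun θ => ∑' j, g j θ) ν := by
  have hCs : ∀ θ, HasSum (fun j => g j θ) (∑' j, g j θ) := fun θ =>
    (Summable.of_norm_bounded hs (hgb · θ)).hasSum
  refine Integrable.mono' (integrable_const (∑' j, b j)) ?_
    (Filter.Eventually.of_forall fun θ => ?_)
  · refine aestronglyMeasurable_of_tendsto_ae (u := (atTop : Filter (Finset ι)))
      (f := fun s θ => ∑ j ∈ s, g j θ) (fun s => ?_) (Filter.Eventually.of_forall fun θ => ?_)
    · exact (Finset.measurable_fun_sum s fun j _ => hg j).aestronglyMeasurable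
    · exact hCs θ
  · exact tsum_of_norm_bounded hs.hasSum (hgb · θ)

/-- Interchange of sum and integral for such a series. -/
theorem series_swap {ι : Type*} [Countable ι] {ν : Measure ℝ} [IsFiniteMeasure ν]
    (g : ι → ℝ → ℂ) (hg : ∀ j, Measurable (g j)) (b : ι → ℝ) (hs : Summable b)
    (hgb : ∀ j θ, ‖g j θ‖ ≤ b j) (φ : ℝ → ℂ) (hφ : AEStronglyMeasurable φ ν) (M : ℝ)
    (hM : ∀ᵐ θ ∂ν, ‖φ θ‖ ≤ M) :
    HasSum (fun j => ∫ θ, g j θ * φ θ ∂ν) (∫ θ, (∑' j, g j θ) * φ θ ∂ν) := by
  have hi : ∀ j, Integrable (fun θ => g j θ * φ θ) ν := by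
    intro j
    refine Integrable.mono' (integrable_const (b j * M))
      ((hg j).aestronglyMeasurable.mul hφ) ?_
    filter_upwards [hM] with θ hθ
    rw [norm_mul]
    exact mul_le_mul (hgb j θ) hθ (norm_nonneg _) ((norm_nonneg _).trans (hgb j θ))
  have hsm : Summable fun j => ∫ θ, ‖g j θ * φ θ‖ ∂ν := by
    refine Summable.of_nonneg_of_le (fun j => integral_nonneg fun _ => norm_nonneg _)
      (fun j => ?_) (hs.mul_right (M * ν.real Set.univ))
    calc ∫ θ, ‖g j θ * φ θ‖ ∂ν
        ≤ ∫ θ, b j * M ∂ν := by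
          refine integral_mono_ae (hi j).norm (integrable_const _) ?_
          filter_upwards [hM] with θ hθ
          rw [norm_mul]
          exact mul_le_mul (hgb j θ) hθ (norm_nonneg _) ((norm_nonneg _).trans (hgb j θ))
      _ = _ := by
          rw [integral_const, smul_eq_mul]
          ring
  have h2 := hasSum_integral_of_summable_integral_norm hi hsm
  have e1 : (fun θ => ∑' j, g j θ * φ θ) = fun θ => (∑' j, g j θ) * φ θ := by
    funext θ
    exact (((Summable.of_norm_bounded hs (hgb · θ)).hasSum).mul_right _).tsum_eq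
  rw [e1] at h2
  exact h2

/-- Absolutely convergent series of cardinal functions form Fourier pairs. -/
theorem pair_series {ι : Type*} [Countable ι] (L τ : ℝ) (hL : 0 ≤ L) (hτ : 0 < τ)
    (κ : ι → ℝ → ℂ) (hκ : ∀ j, Measurable (κ j)) (B : ι → ℝ) (hB : ∀ j θ, ‖κ j θ‖ ≤ B j)
    (p : ι → ℝ) (x : ι → ℂ) (hs : Summable fun j => ‖x j‖ * B j * Real.exp (mu * τ * p j)) :
    Pair (fun n => ∑' j, x j * KK L τ (κ j) (p j) n)
      (fun n => ∑' j, x j * KH L τ (κ j) (p j) n) := by
  set ν : Measure ℝ := volume.restrict (Set.Ioc (-L) L) with hν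
  have hfin : IsFiniteMeasure ν := by rw [hν]; infer_instance
  set g : ι → ℝ → ℂ := fun j θ => x j * (κ j θ * cexp (I * mu * wt τ θ * (-p j : ℝ))) with hg
  have hgb : ∀ j θ, ‖g j θ‖ ≤ ‖x j‖ * B j * Real.exp (mu * τ * p j) := by
    intro j θ
    rw [hg]
    simp only
    rw [norm_mul, norm_mul, norm_wt_exp]
    have : Real.exp (-(mu * τ * -p j)) = Real.exp (mu * τ * p j) := by
      congr 1
      ring
    rw [this, ← mul_assoc]
    exact mul_le_mul_of_nonneg_right
      (mul_le_mul_of_nonneg_left (hB j θ) (norm_nonneg (x j))) (Real.exp_pos _).le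
  have hgm : ∀ j, Measurable (g j) := by
    intro j
    rw [hg]
    refine measurable_const.mul ((hκ j).mul ?_)
    exact (Complex.continuous_exp.comp
      ((continuous_const.mul (wt_cont τ)).mul continuous_const)).measurable
  have hCi : Integrable (fun θ => ∑' j, g j θ) ν := series_integrable g hgm _ hs hgb
  have hLL : -L ≤ L := by linarith
  -- the parameter, modified to be bounded
  set w : ℝ → ℂ := fun θ => wt τ (max (-L) (min L θ)) with hw
  have hwc : Continuous w := (wt_cont τ).comp (by fun_prop)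
  have hwe : ∀ θ ∈ Set.Ioc (-L) L, w θ = wt τ θ := by
    intro θ hθ
    rw [hw]
    simp only
    rw [min_eq_right hθ.2, max_eq_right hθ.1.le]
  have hwn : ∀ θ, ‖w θ‖ ≤ L / mu + τ := by
    intro θ
    have h1 : ‖w θ‖ ≤ |(w θ).re| + |(w θ).im| := Complex.norm_le_abs_re_add_abs_im _
    rw [hw] at h1 ⊢
    simp only at h1 ⊢
    rw [wt_re, wt_im, abs_div, abs_of_pos mu_pos, abs_of_pos hτ] at h1
    refine h1.trans ?_
    gcongr
    · exact mu_pos.le
    rw [abs_le]
    exact ⟨le_max_left _ _, max_le hLL (min_le_left _ _)⟩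
  have h := pair_gpr ν (fun θ => ∑' j, g j θ) w hCi hwc.measurable (L / mu + τ) τ hwn hτ
    (fun θ => by rw [hw]; simp only; rw [wt_im])
  have key : ∀ (φ : ℝ → ℂ), Continuous φ →
      HasSum (fun j => ∫ θ in (-L)..L, g j θ * φ θ) (∫ θ, (∑' j, g j θ) * φ θ ∂ν) := by
    intro φ hφ
    obtain ⟨M, hM⟩ := (isCompact_Icc (a := -L) (b := L)).exists_bound_of_continuousOn
      hφ.continuousOn
    have hM' : ∀ᵐ θ ∂ν, ‖φ θ‖ ≤ M := by
      rw [hν]
      exact (ae_restrict_iff' measurableSet_Ioc).2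
        (Filter.Eventually.of_forall fun θ hθ => hM θ (Set.Ioc_subset_Icc_self hθ))
    have h2 := series_swap g hgm _ hs hgb φ hφ.aestronglyMeasurable M hM'
    have e2 : (fun j => ∫ θ in (-L)..L, g j θ * φ θ) = fun j => ∫ θ, g j θ * φ θ ∂ν := by
      funext j
      rw [intervalIntegral.integral_of_le hLL, hν]
    rw [e2]
    exact h2
  refine h.congr (fun n _ => ?_) (fun n _ => ?_)
  · have h3 := key (fun θ => cexp (I * mu * wt τ θ * n)) (Complex.continuous_exp.comp
      ((continuous_const.mul (wt_cont τ)).mul continuous_const))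
    have e3 : (fun j => ∫ θ in (-L)..L, g j θ * cexp (I * mu * wt τ θ * n)) =
        fun j => x j * KK L τ (κ j) (p j) n := by
      funext j
      rw [KK_congr, ← intervalIntegral.integral_const_mul]
      refine intervalIntegral.integral_congr fun θ _ => ?_
      rw [hg]
      simp only
      ring
    rw [e3] at h3
    rw [h3.tsum_eq]
    unfold gpr
    rw [hν]
    refine setIntegral_congr_fun measurableSet_Ioc fun θ hθ => ?_
    rw [hwe θ hθ]
  · have h3 := key (fun θ => I / wt τ θ * cexp (-(I * mu * n / wt τ θ))) (by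
      refine Continuous.mul (Continuous.div continuous_const (wt_cont τ) fun θ => wt_ne τ θ hτ) ?_
      refine Complex.continuous_exp.comp (Continuous.neg ?_)
      exact Continuous.div continuous_const (wt_cont τ) fun θ => wt_ne τ θ hτ)
    have e3 : (fun j => ∫ θ in (-L)..L, g j θ * (I / wt τ θ * cexp (-(I * mu * n / wt τ θ)))) =
        fun j => x j * KH L τ (κ j) (p j) n := by
      funext j
      unfold KH
      rw [← intervalIntegral.integral_const_mul]
      refine intervalIntegral.integral_congr fun θ _ => ?_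
      rw [hg]
      simp only
      ring
    rw [e3] at h3
    rw [h3.tsum_eq]
    unfold hpr
    rw [hν]
    refine setIntegral_congr_fun measurableSet_Ioc fun θ hθ => ?_
    rw [hwe θ hθ]

/-- A single cardinal function. -/
theorem pair_KK (L τ : ℝ) (hL : 0 ≤ L) (hτ : 0 < τ) (κ : ℝ → ℂ) (hκ : Measurable κ) (B : ℝ)
    (hB : ∀ θ, ‖κ θ‖ ≤ B) (p : ℝ) : Pair (KK L τ κ p) (KH L τ κ p) := by
  have h := pair_series (ι := Unit) L τ hL hτ (fun _ => κ) (fun _ => hκ) (fun _ => B)
    (fun _ => hB) (fun _ => p) (fun _ => 1) Summable.of_finite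
  refine h.congr (fun n _ => ?_) (fun n _ => ?_)
  · simp
  · simp

end CE48
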