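import Mathlib
import Pool.Agent.Helper48.CE.Ser

/-!
# Normalised transforms

Everything is multiplied by `e^{μ τ n}`.  With `w = θ/μ + i τ` and `z = μ τ - i μ / w` the
normalised transform of `∫ κ e^{iθ(n-p)}` is
`HN m n = ∫ κ(θ) e^{-iθp} (i/w) z^m e^{z n} dθ` for `m = 0`, and `HN (m+1)` is the derivative of
`HN m`.
-/

open MeasureTheory Complex Filter Topology

namespace CE48

/-- `z = μ τ - i μ / w`. -/
noncomputable def zz (τ θ : ℝ) : ℂ := mu * τ - I * mu / wt τ θ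

theorem zz_cont (τ : ℝ) (hτ : 0 < τ) : Continuous (zz τ) := by
  unfold zz
  exact continuous_const.sub (Continuous.div continuous_const (wt_cont τ) fun θ => wt_ne τ θ hτ)

theorem I_div_wt (τ θ : ℝ) : I / wt τ θ =
    ((τ / ((θ / mu) ^ 2 + τ ^ 2) : ℝ) : ℂ) + ((θ / mu / ((θ / mu) ^ 2 + τ ^ 2) : ℝ) : ℂ) * I := by
  have hns : Complex.normSq (wt τ θ) = (θ / mu) ^ 2 + τ ^ 2 := by
    rw [Complex.normSq_eq_norm_sq, wt_normSq]
  apply Complex.ext
  · rw [Complex.div_re, hns, wt_re, wt_im, Complex.add_re, Complex.ofReal_re,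
      Complex.re_ofReal_mul, Complex.I_re, Complex.I_im]
    ring
  · rw [Complex.div_im, hns, wt_re, wt_im, Complex.add_im, Complex.ofReal_im,
      Complex.im_ofReal_mul, Complex.I_re, Complex.I_im]
    ring

theorem zz_eq (τ θ : ℝ) : zz τ θ = ((mu * (τ - τ / ((θ / mu) ^ 2 + τ ^ 2)) : ℝ) : ℂ) +
    ((-(mu * (θ / mu / ((θ / mu) ^ 2 + τ ^ 2))) : ℝ) : ℂ) * I := by
  unfold zz
  have : I * mu / wt τ θ = mu * (I / wt τ θ) := by ring
  rw [this, I_div_wt]
  push_cast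
  ring

theorem zz_re (τ θ : ℝ) : (zz τ θ).re = mu * (τ - τ / ((θ / mu) ^ 2 + τ ^ 2)) := by
  rw [zz_eq, Complex.add_re, Complex.ofReal_re, Complex.re_ofReal_mul, Complex.I_re, mul_zero,
    add_zero]

theorem zz_im (τ θ : ℝ) : (zz τ θ).im = -(mu * (θ / mu / ((θ / mu) ^ 2 + τ ^ 2))) := by
  rw [zz_eq, Complex.add_im, Complex.ofReal_im, Complex.im_ofReal_mul, Complex.I_im, mul_one,
    zero_add]

/-- `|z|² = μ² ((1 - 2τ²)/|w|² + τ²)`. -/
theorem zz_normSq (τ θ : ℝ) (hτ : 0 < τ) :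
    ‖zz τ θ‖ ^ 2 = mu ^ 2 * ((1 - 2 * τ ^ 2) * ((θ / mu) ^ 2 + τ ^ 2)⁻¹ + τ ^ 2) := by
  rw [← Complex.normSq_eq_norm_sq, Complex.normSq_apply, zz_re, zz_im]
  generalize θ / mu = a
  have hpos : 0 < a ^ 2 + τ ^ 2 := by positivity
  field_simp
  ring

/-- The basic monotonicity: the worst point is the end of the segment. -/
theorem kernel_bound (τ L θ : ℝ) (hτ : 0 < τ) (hθ : |θ| ≤ L) (m : ℕ)
    (n : ℝ) (hm : ((m : ℝ) + 1) * ((L / mu) ^ 2 + τ ^ 2) ≤ 2 * (mu * τ * n)) :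
    (1 / ‖wt τ θ‖) * ‖zz τ θ‖ ^ m * Real.exp ((zz τ θ).re * n) ≤
      (1 / ‖wt τ L‖) * ‖zz τ L‖ ^ m * Real.exp ((zz τ L).re * n) := by
  have hmu := mu_pos
  set r : ℝ := (θ / mu) ^ 2 + τ ^ 2 with hr
  set R : ℝ := (L / mu) ^ 2 + τ ^ 2 with hR
  have hr0 : 0 < r := by positivity
  have hR0 : 0 < R := by positivity
  have hrR : r ≤ R := by
    rw [hr, hR]
    have h4 : (θ / mu) ^ 2 ≤ (L / mu) ^ 2 := by
      rw [div_pow, div_pow]
      refine div_le_div_of_nonneg_right ?_ (sq_nonneg _)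
      rw [← sq_abs θ]
      exact pow_le_pow_left₀ (abs_nonneg _) hθ 2
    linarith
  have hw1 : ‖wt τ θ‖ = √r := by
    rw [hr, ← wt_normSq, Real.sqrt_sq (norm_nonneg _)]
  have hw2 : ‖wt τ L‖ = √R := by
    rw [hR, ← wt_normSq, Real.sqrt_sq (norm_nonneg _)]
  -- the ratio `q = R / r ≥ 1`
  set q : ℝ := R / r with hq
  have hq1 : 1 ≤ q := by rw [hq, le_div_iff₀ hr0]; linarith
  have hq0 : 0 < q := by linarith
  have hsq : √R = √q * √r := by
    rw [← Real.sqrt_mul hq0.le, hq, div_mul_cancel₀ _ hr0.ne']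
  have hsr : 0 < √r := Real.sqrt_pos.2 hr0
  have hsR : 0 < √R := Real.sqrt_pos.2 hR0
  have hsq0 : 0 < √q := Real.sqrt_pos.2 hq0
  -- `1/√r = √q / √R`
  have h1 : 1 / √r = √q * (1 / √R) := by
    rw [hsq]
    field_simp
  -- `|z(θ)| ≤ √q |z(L)|`
  have h2 : ‖zz τ θ‖ ≤ √q * ‖zz τ L‖ := by
    refine (pow_le_pow_iff_left₀ (norm_nonneg _) (by positivity) two_ne_zero).1 ?_
    rw [mul_pow, Real.sq_sqrt hq0.le, zz_normSq τ θ hτ, zz_normSq τ L hτ, ← hr, ← hR]
    have e1 : q * (mu ^ 2 * ((1 - 2 * τ ^ 2) * R⁻¹ + τ ^ 2)) =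
        mu ^ 2 * ((1 - 2 * τ ^ 2) * r⁻¹ + q * τ ^ 2) := by
      rw [hq]
      field_simp
    rw [e1]
    refine mul_le_mul_of_nonneg_left ?_ (sq_nonneg _)
    have : τ ^ 2 ≤ q * τ ^ 2 := by nlinarith [sq_nonneg τ]
    linarith
  -- the exponentials
  have h3 : (√q) ^ (m + 1) * Real.exp ((zz τ θ).re * n) ≤ Real.exp ((zz τ L).re * n) := by
    have h4 : (√q) ^ (m + 1) ≤ Real.exp (((m : ℝ) + 1) / 2 * (q - 1)) := by
      have h5 : √q ≤ Real.exp ((q - 1) / 2) := by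
        rw [Real.sqrt_le_left (Real.exp_pos _).le, ← Real.exp_nat_mul]
        have := Real.add_one_le_exp (q - 1)
        have e : ((2 : ℕ) : ℝ) * ((q - 1) / 2) = q - 1 := by push_cast; ring
        rw [e]
        linarith
      calc (√q) ^ (m + 1) ≤ (Real.exp ((q - 1) / 2)) ^ (m + 1) :=
            pow_le_pow_left₀ hsq0.le h5 _
        _ = Real.exp (((m : ℝ) + 1) / 2 * (q - 1)) := by
            rw [← Real.exp_nat_mul]
            congr 1
            push_cast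
            ring
    have h6 : ((m : ℝ) + 1) / 2 * (q - 1) + (zz τ θ).re * n ≤ (zz τ L).re * n := by
      rw [zz_re, zz_re, ← hr, ← hR]
      have e2 : mu * (τ - τ / R) * n - mu * (τ - τ / r) * n = (mu * τ * n) / R * (q - 1) := by
        rw [hq]
        field_simp
        ring
      have h7 : ((m : ℝ) + 1) / 2 ≤ mu * τ * n / R := by
        rw [le_div_iff₀ hR0]
        linarith
      have h8 := mul_le_mul_of_nonneg_right h7 (by linarith : (0 : ℝ) ≤ q - 1)
      linarith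
    calc (√q) ^ (m + 1) * Real.exp ((zz τ θ).re * n)
        ≤ Real.exp (((m : ℝ) + 1) / 2 * (q - 1)) * Real.exp ((zz τ θ).re * n) :=
          mul_le_mul_of_nonneg_right h4 (Real.exp_pos _).le
      _ = Real.exp (((m : ℝ) + 1) / 2 * (q - 1) + (zz τ θ).re * n) := by rw [Real.exp_add]
      _ ≤ _ := Real.exp_le_exp.2 h6
  rw [hw1, hw2, h1]
  have h9 : ‖zz τ θ‖ ^ m ≤ (√q) ^ m * ‖zz τ L‖ ^ m := by
    rw [← mul_pow]
    exact pow_le_pow_left₀ (norm_nonneg _) h2 m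
  calc √q * (1 / √R) * ‖zz τ θ‖ ^ m * Real.exp ((zz τ θ).re * n)
      ≤ √q * (1 / √R) * ((√q) ^ m * ‖zz τ L‖ ^ m) * Real.exp ((zz τ θ).re * n) := by
        refine mul_le_mul_of_nonneg_right ?_ (Real.exp_pos _).le
        exact mul_le_mul_of_nonneg_left h9 (by positivity)
    _ = (1 / √R) * ‖zz τ L‖ ^ m * ((√q) ^ (m + 1) * Real.exp ((zz τ θ).re * n)) := by
        rw [pow_succ]
        ring
    _ ≤ _ := mul_le_mul_of_nonneg_left h3 (by positivity)

theorem norm_wt_ge (τ θ : ℝ) : τ ≤ ‖wt τ θ‖ := by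
  have h := Complex.abs_im_le_norm (wt τ θ)
  rw [wt_im] at h
  exact (le_abs_self τ).trans h

theorem norm_zz_le (τ θ : ℝ) (hτ : 0 < τ) : ‖zz τ θ‖ ≤ mu * τ + mu / τ := by
  unfold zz
  refine (norm_sub_le _ _).trans ?_
  have hmu := mu_pos
  rw [norm_mul, norm_div, norm_mul, norm_I, one_mul, Complex.norm_real, Complex.norm_real,
    Real.norm_of_nonneg hmu.le, Real.norm_of_nonneg hτ.le]
  have h1 := norm_wt_ge τ θ
  have h2 : mu / ‖wt τ θ‖ ≤ mu / τ := div_le_div_of_nonneg_left hmu.le hτ h1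
  linarith

/-- The factor `(i/w) z^m e^{z n}`. -/
noncomputable def NF (τ : ℝ) (m : ℕ) (n θ : ℝ) : ℂ :=
  I / wt τ θ * zz τ θ ^ m * cexp (zz τ θ * n)

theorem NF_cont (τ : ℝ) (hτ : 0 < τ) (m : ℕ) (n : ℝ) : Continuous (NF τ m n) := by
  unfold NF
  refine Continuous.mul (Continuous.mul ?_ ((zz_cont τ hτ).pow m)) ?_
  · exact Continuous.div continuous_const (wt_cont τ) fun θ => wt_ne τ θ hτ
  · exact Complex.continuous_exp.comp ((zz_cont τ hτ).mul continuous_const)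

theorem norm_NF (τ : ℝ) (m : ℕ) (n θ : ℝ) :
    ‖NF τ m n θ‖ = (1 / ‖wt τ θ‖) * ‖zz τ θ‖ ^ m * Real.exp ((zz τ θ).re * n) := by
  unfold NF
  rw [norm_mul, norm_mul, norm_div, norm_I, norm_pow, Complex.norm_exp]
  congr 2
  simp [Complex.mul_re]

/-- `ρ E^m e^{-g n}`: the value at the end of the segment. -/
noncomputable def BD (τ L : ℝ) (m : ℕ) (n : ℝ) : ℝ :=
  (1 / ‖wt τ L‖) * ‖zz τ L‖ ^ m * Real.exp ((zz τ L).re * n)

theorem BD_nonneg (τ L : ℝ) (m : ℕ) (n : ℝ) : 0 ≤ BD τ L m n := by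
  unfold BD
  positivity

theorem norm_NF_le (τ L θ : ℝ) (hτ : 0 < τ) (hθ : |θ| ≤ L) (m : ℕ)
    (n : ℝ) (hm : ((m : ℝ) + 1) * ((L / mu) ^ 2 + τ ^ 2) ≤ 2 * (mu * τ * n)) :
    ‖NF τ m n θ‖ ≤ BD τ L m n := by
  rw [norm_NF]
  exact kernel_bound τ L θ hτ hθ m n hm

theorem NF_hasDerivAt (τ : ℝ) (m : ℕ) (n θ : ℝ) :
    HasDerivAt (fun n : ℝ => NF τ m n θ) (NF τ (m + 1) n θ) n := by
  unfold NF
  have h1 : HasDerivAt (fun x : ℝ => zz τ θ * (x : ℂ)) (zz τ θ * 1) n :=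
    (Complex.ofRealCLM.hasDerivAt (x := n)).const_mul (zz τ θ)
  have h2 := (h1.cexp).const_mul (I / wt τ θ * zz τ θ ^ m)
  refine h2.congr_deriv ?_
  rw [pow_succ]
  ring

/-- A superposition of the factors. -/
noncomputable def NS (ν : Measure ℝ) (C : ℝ → ℂ) (τ : ℝ) (m : ℕ) (n : ℝ) : ℂ :=
  ∫ θ, C θ * NF τ m n θ ∂ν

theorem NS_hasDerivAt (ν : Measure ℝ) (C : ℝ → ℂ) (hC : Integrable C ν) (τ : ℝ) (hτ : 0 < τ)
    (m : ℕ) (n : ℝ) : HasDerivAt (NS ν C τ m) (NS ν C τ (m + 1) n) n := by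
  have hfac : ∀ k : ℕ, Continuous fun θ => I / wt τ θ * zz τ θ ^ k := fun k =>
    Continuous.mul (Continuous.div continuous_const (wt_cont τ) fun θ => wt_ne τ θ hτ)
      ((zz_cont τ hτ).pow k)
  have hint : ∀ k : ℕ, Integrable (fun θ => C θ * (I / wt τ θ * zz τ θ ^ k)) ν := by
    intro k
    refine Integrable.mono' (hC.norm.mul_const (1 / τ * (mu * τ + mu / τ) ^ k))
      (hC.1.mul (hfac k).aestronglyMeasurable) (Filter.Eventually.of_forall fun θ => ?_)
    rw [norm_mul, norm_mul, norm_div, norm_I, norm_pow]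
    refine mul_le_mul_of_nonneg_left ?_ (norm_nonneg _)
    refine mul_le_mul ?_ (pow_le_pow_left₀ (norm_nonneg _) (norm_zz_le τ θ hτ) k)
      (by positivity) (by positivity)
    exact div_le_div_of_nonneg_left zero_le_one hτ (norm_wt_ge τ θ)
  have h := prof_hasDerivAt (ν := ν) (c := fun θ => C θ * (I / wt τ θ * zz τ θ ^ m))
    (s := fun θ => -zz τ θ) (hint m) ((zz_cont τ hτ).neg.measurable)
    (S := mu * τ + mu / τ) (fun θ => by rw [norm_neg]; exact norm_zz_le τ θ hτ) n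
  have e1 : prof ν (fun θ => C θ * (I / wt τ θ * zz τ θ ^ m)) (fun θ => -zz τ θ) =
      NS ν C τ m := by
    funext r
    unfold prof NS NF
    refine integral_congr_ae (Filter.Eventually.of_forall fun θ => ?_)
    simp only [neg_neg]
    ring
  have e2 : prof ν (fun θ => C θ * (I / wt τ θ * zz τ θ ^ m) * -(-zz τ θ))
      (fun θ => -zz τ θ) n = NS ν C τ (m + 1) n := by
    unfold prof NS NF
    refine integral_congr_ae (Filter.Eventually.of_forall fun θ => ?_)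
    simp only [neg_neg]
    rw [pow_succ]
    ring
  rw [e1, e2] at h
  exact h

theorem norm_NS_le (ν : Measure ℝ) (C : ℝ → ℂ) (hC : Integrable C ν) (τ L : ℝ) (hτ : 0 < τ)
    (hL : ∀ᵐ θ ∂ν, |θ| ≤ L) (m : ℕ)
    (n : ℝ) (hm : ((m : ℝ) + 1) * ((L / mu) ^ 2 + τ ^ 2) ≤ 2 * (mu * τ * n)) :
    ‖NS ν C τ m n‖ ≤ (∫ θ, ‖C θ‖ ∂ν) * BD τ L m n := by
  unfold NS
  rw [← integral_mul_const]
  refine norm_integral_le_of_norm_le (hC.norm.mul_const _) ?_
  filter_upwards [hL] with θ hθ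
  rw [norm_mul]
  exact mul_le_mul_of_nonneg_left (norm_NF_le τ L θ hτ hθ m n hm) (norm_nonneg _)

/-- The normalised transform of `∫ κ e^{iθ(n-p)}`, and its derivatives. -/
noncomputable def HN (L τ : ℝ) (κ : ℝ → ℂ) (p : ℝ) (m : ℕ) (n : ℝ) : ℂ :=
  ∫ θ in (-L)..L, κ θ * cexp (-(I * θ * p)) * NF τ m n θ

/-- The normalised cardinal function. -/
noncomputable def SN (L : ℝ) (κ : ℝ → ℂ) (p n : ℝ) : ℂ :=
  ∫ θ in (-L)..L, κ θ * cexp (I * θ * (n - p : ℝ))

theorem KK_eq_SN (L τ : ℝ) (κ : ℝ → ℂ) (p n : ℝ) :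
    KK L τ κ p n = Real.exp (mu * τ * p) * (Real.exp (-(mu * τ * n)) * SN L κ p n) := by
  rw [KK_eq]
  unfold SN
  have : Real.exp (-(mu * τ * (n - p))) = Real.exp (mu * τ * p) * Real.exp (-(mu * τ * n)) := by
    rw [← Real.exp_add]
    congr 1
    ring
  rw [this]
  push_cast
  ring

theorem KH_eq_HN (L τ : ℝ) (κ : ℝ → ℂ) (p n : ℝ) :
    KH L τ κ p n = Real.exp (mu * τ * p) * (Real.exp (-(mu * τ * n)) * HN L τ κ p 0 n) := by
  unfold KH HN NF
  rw [← intervalIntegral.integral_const_mul, ← intervalIntegral.integral_const_mul]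
  refine intervalIntegral.integral_congr fun θ _ => ?_
  simp only [pow_zero, mul_one]
  have e1 : cexp (I * mu * wt τ θ * (-p : ℝ)) =
      cexp (-(I * θ * p)) * (Real.exp (mu * τ * p) : ℝ) := by
    rw [wt_exp, Complex.exp_add, Complex.ofReal_exp]
    congr 2
    · push_cast; ring
    · push_cast; ring
  have e2 : cexp (-(I * mu * n / wt τ θ)) =
      cexp (zz τ θ * n) * (Real.exp (-(mu * τ * n)) : ℝ) := by
    rw [Complex.ofReal_exp, ← Complex.exp_add]
    congr 1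
    unfold zz
    push_cast
    ring
  rw [e1, e2]
  ring

theorem HN_eq_NS (L τ : ℝ) (hL : 0 ≤ L) (κ : ℝ → ℂ) (p : ℝ) (m : ℕ) (n : ℝ) :
    HN L τ κ p m n = NS (volume.restrict (Set.Ioc (-L) L))
      (fun θ => κ θ * cexp (-(I * θ * p))) τ m n := by
  unfold HN NS
  rw [intervalIntegral.integral_of_le (by linarith)]

theorem ae_Ioc (L : ℝ) : ∀ᵐ θ ∂(volume.restrict (Set.Ioc (-L) L) : Measure ℝ), |θ| ≤ L :=
  (ae_restrict_iff' measurableSet_Ioc).2
    (Filter.Eventually.of_forall fun _ hθ => abs_le.2 ⟨hθ.1.le, hθ.2⟩)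

theorem norm_exp_neg_I (θ p : ℝ) : ‖cexp (-(I * θ * p))‖ = 1 := by
  have : -(I * θ * p) = ((-(θ * p) : ℝ) : ℂ) * I := by push_cast; ring
  rw [this, Complex.norm_exp_ofReal_mul_I]

theorem meas_exp_neg_I (p : ℝ) : Continuous fun θ : ℝ => cexp (-(I * θ * p)) := by fun_prop

/-- The density of a series. -/
noncomputable def CS {ι : Type*} (κ : ι → ℝ → ℂ) (p : ι → ℝ) (x : ι → ℂ) (θ : ℝ) : ℂ :=
  ∑' j, x j * (κ j θ * cexp (-(I * θ * p j)))

section series

variable {ι : Type*} [Countable ι] (L τ : ℝ) (κ : ι → ℝ → ℂ) (B : ι → ℝ) (p : ι → ℝ) (x : ι → ℂ)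

omit [Countable ι] in
theorem term_bound (hB : ∀ j θ, ‖κ j θ‖ ≤ B j) (j : ι) (θ : ℝ) :
    ‖x j * (κ j θ * cexp (-(I * θ * p j)))‖ ≤ ‖x j‖ * B j := by
  rw [norm_mul, norm_mul, norm_exp_neg_I, mul_one]
  exact mul_le_mul_of_nonneg_left (hB j θ) (norm_nonneg _)

omit [Countable ι] in
theorem term_meas (hκ : ∀ j, Measurable (κ j)) (j : ι) :
    Measurable fun θ => x j * (κ j θ * cexp (-(I * θ * p j))) :=
  measurable_const.mul ((hκ j).mul (meas_exp_neg_I (p j)).measurable)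

theorem CS_integrable (hκ : ∀ j, Measurable (κ j)) (hB : ∀ j θ, ‖κ j θ‖ ≤ B j)
    (hs : Summable fun j => ‖x j‖ * B j) :
    Integrable (CS κ p x) (volume.restrict (Set.Ioc (-L) L)) :=
  series_integrable _ (term_meas κ p x hκ) _ hs (term_bound κ B p x hB)

/-- The normalised transform of a series is a superposition. -/
theorem HN_series (hL : 0 ≤ L) (hτ : 0 < τ) (hκ : ∀ j, Measurable (κ j))
    (hB : ∀ j θ, ‖κ j θ‖ ≤ B j) (hs : Summable fun j => ‖x j‖ * B j) (m : ℕ) (n : ℝ) :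
    HasSum (fun j => x j * HN L τ (κ j) (p j) m n)
      (NS (volume.restrict (Set.Ioc (-L) L)) (CS κ p x) τ m n) := by
  have hLL : -L ≤ L := by linarith
  obtain ⟨M, hM⟩ := (isCompact_Icc (a := -L) (b := L)).exists_bound_of_continuousOn
    (NF_cont τ hτ m n).continuousOn
  have hM' : ∀ᵐ θ ∂(volume.restrict (Set.Ioc (-L) L) : Measure ℝ), ‖NF τ m n θ‖ ≤ M :=
    (ae_restrict_iff' measurableSet_Ioc).2
      (Filter.Eventually.of_forall fun θ hθ => hM θ (Set.Ioc_subset_Icc_self hθ))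
  have h := series_swap (ν := volume.restrict (Set.Ioc (-L) L)) _ (term_meas κ p x hκ) _ hs
    (term_bound κ B p x hB) (NF τ m n) (NF_cont τ hτ m n).aestronglyMeasurable M hM'
  have e : (fun j => x j * HN L τ (κ j) (p j) m n) =
      fun j => ∫ θ, x j * (κ j θ * cexp (-(I * θ * p j))) * NF τ m n θ
        ∂(volume.restrict (Set.Ioc (-L) L)) := by
    funext j
    unfold HN
    rw [intervalIntegral.integral_of_le hLL, ← integral_const_mul]
    refine integral_congr_ae (Filter.Eventually.of_forall fun θ => ?_)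
    simp only
    ring
  rw [e]
  exact h

/-- The total mass of the density. -/
theorem CS_mass (hL : 0 ≤ L) (hκ : ∀ j, Measurable (κ j))
    (hB : ∀ j θ, ‖κ j θ‖ ≤ B j) (hs : Summable fun j => ‖x j‖ * B j) :
    Summable (fun j => ‖x j‖ * ∫ θ in (-L)..L, ‖κ j θ‖) ∧
    ∫ θ, ‖CS κ p x θ‖ ∂(volume.restrict (Set.Ioc (-L) L)) ≤
      ∑' j, ‖x j‖ * ∫ θ in (-L)..L, ‖κ j θ‖ := by
  have hLL : -L ≤ L := by linarith
  have hki : ∀ j, Integrable (κ j) (volume.restrict (Set.Ioc (-L) L)) := fun j =>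
    Integrable.mono' (integrable_const (B j)) (hκ j).aestronglyMeasurable
      (Filter.Eventually.of_forall fun θ => hB j θ)
  have hB0 : ∀ j, 0 ≤ B j := fun j => (norm_nonneg _).trans (hB j 0)
  have e0 : ∀ j, ∫ θ in (-L)..L, ‖κ j θ‖ =
      ∫ θ, ‖κ j θ‖ ∂(volume.restrict (Set.Ioc (-L) L)) := fun j => by
    rw [intervalIntegral.integral_of_le hLL]
  have hle : ∀ j, ∫ θ in (-L)..L, ‖κ j θ‖ ≤ B j * (2 * L) := by
    intro j
    rw [e0]
    calc ∫ θ, ‖κ j θ‖ ∂(volume.restrict (Set.Ioc (-L) L))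
        ≤ ∫ _, B j ∂(volume.restrict (Set.Ioc (-L) L)) :=
          integral_mono (hki j).norm (integrable_const _) (fun θ => hB j θ)
      _ = B j * (2 * L) := by
          rw [integral_const, smul_eq_mul, Measure.real, Measure.restrict_apply_univ,
            Real.volume_Ioc, ENNReal.toReal_ofReal (by linarith)]
          ring
  have hsum : Summable (fun j => ‖x j‖ * ∫ θ in (-L)..L, ‖κ j θ‖) := by
    refine Summable.of_nonneg_of_le (fun j => ?_) (fun j => ?_) (hs.mul_right (2 * L))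
    · refine mul_nonneg (norm_nonneg _) ?_
      rw [e0]
      exact integral_nonneg fun _ => norm_nonneg _
    · calc ‖x j‖ * ∫ θ in (-L)..L, ‖κ j θ‖ ≤ ‖x j‖ * (B j * (2 * L)) :=
            mul_le_mul_of_nonneg_left (hle j) (norm_nonneg _)
        _ = _ := by ring
  refine ⟨hsum, ?_⟩
  have hi : ∀ j, Integrable (fun θ => ‖x j * (κ j θ * cexp (-(I * θ * p j)))‖)
      (volume.restrict (Set.Ioc (-L) L)) := by
    intro j
    refine Integrable.mono' (integrable_const (‖x j‖ * B j))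
      (term_meas κ p x hκ j).norm.aestronglyMeasurable
      (Filter.Eventually.of_forall fun θ => ?_)
    rw [norm_norm]
    exact term_bound κ B p x hB j θ
  have hval : ∀ j, ∫ θ, ‖x j * (κ j θ * cexp (-(I * θ * p j)))‖
      ∂(volume.restrict (Set.Ioc (-L) L)) = ‖x j‖ * ∫ θ in (-L)..L, ‖κ j θ‖ := by
    intro j
    rw [e0, ← integral_const_mul]
    refine integral_congr_ae (Filter.Eventually.of_forall fun θ => ?_)
    simp only
    rw [norm_mul, norm_mul, norm_exp_neg_I, mul_one]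
  have hsm : Summable fun j => ∫ θ, ‖(‖x j * (κ j θ * cexp (-(I * θ * p j)))‖ : ℝ)‖
      ∂(volume.restrict (Set.Ioc (-L) L)) := by
    simp_rw [norm_norm, hval]
    exact hsum
  have h2 := hasSum_integral_of_summable_integral_norm hi hsm
  simp_rw [hval] at h2
  rw [h2.tsum_eq]
  have hs2 : ∀ θ, Summable fun j => ‖x j * (κ j θ * cexp (-(I * θ * p j)))‖ := fun θ =>
    Summable.of_nonneg_of_le (fun j => norm_nonneg _) (term_bound κ B p x hB · θ) hs
  refine integral_mono (CS_integrable L κ B p x hκ hB hs).norm ?_ fun θ => ?_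
  · refine Integrable.mono' (integrable_const (∑' j, ‖x j‖ * B j)) ?_
      (Filter.Eventually.of_forall fun θ => ?_)
    · refine aestronglyMeasurable_of_tendsto_ae (u := (atTop : Filter (Finset ι)))
        (f := fun s θ => ∑ j ∈ s, ‖x j * (κ j θ * cexp (-(I * θ * p j)))‖) (fun s => ?_)
        (Filter.Eventually.of_forall fun θ => ?_)
      · exact (Finset.measurable_fun_sum s fun j _ =>
          (term_meas κ p x hκ j).norm).aestronglyMeasurable
      · exact (hs2 θ).hasSum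
    · rw [Real.norm_of_nonneg (tsum_nonneg fun j => norm_nonneg _)]
      exact (hs2 θ).tsum_le_tsum (term_bound κ B p x hB · θ) hs
  · exact norm_tsum_le_tsum_norm (hs2 θ)

/-- Series of normalised cardinal functions form pairs. -/
theorem pair_norm (hL : 0 ≤ L) (hτ : 0 < τ) (hκ : ∀ j, Measurable (κ j))
    (hB : ∀ j θ, ‖κ j θ‖ ≤ B j) (hs : Summable fun j => ‖x j‖ * B j) :
    Pair (fun n => Real.exp (-(mu * τ * n)) * ∑' j, x j * SN L (κ j) (p j) n)
      (fun n => Real.exp (-(mu * τ * n)) * ∑' j, x j * HN L τ (κ j) (p j) 0 n) := by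
  have hs' : Summable fun j => ‖x j * (Real.exp (-(mu * τ * p j)) : ℝ)‖ * B j *
      Real.exp (mu * τ * p j) := by
    refine hs.congr fun j => ?_
    rw [norm_mul, Complex.norm_real, Real.norm_of_nonneg (Real.exp_pos _).le, Real.exp_neg]
    have := (Real.exp_pos (mu * τ * p j)).ne'
    field_simp
  have h := pair_series L τ hL hτ κ hκ B hB p
    (fun j => x j * (Real.exp (-(mu * τ * p j)) : ℝ)) hs'
  have hc : ∀ j, ((Real.exp (-(mu * τ * p j)) : ℝ) : ℂ) * ((Real.exp (mu * τ * p j) : ℝ) : ℂ) =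
      1 := by
    intro j
    rw [← Complex.ofReal_mul, ← Real.exp_add]
    simp
  refine h.congr (fun n _ => ?_) (fun n _ => ?_)
  · rw [← tsum_mul_left]
    refine tsum_congr fun j => ?_
    rw [KK_eq_SN]
    calc x j * ((Real.exp (-(mu * τ * p j)) : ℝ) : ℂ) * (((Real.exp (mu * τ * p j) : ℝ) : ℂ) *
          (((Real.exp (-(mu * τ * n)) : ℝ) : ℂ) * SN L (κ j) (p j) n))
        = (((Real.exp (-(mu * τ * p j)) : ℝ) : ℂ) * ((Real.exp (mu * τ * p j) : ℝ) : ℂ)) *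
          (x j * (((Real.exp (-(mu * τ * n)) : ℝ) : ℂ) * SN L (κ j) (p j) n)) := by ring
      _ = _ := by rw [hc]; ring
  · rw [← tsum_mul_left]
    refine tsum_congr fun j => ?_
    rw [KH_eq_HN]
    calc x j * ((Real.exp (-(mu * τ * p j)) : ℝ) : ℂ) * (((Real.exp (mu * τ * p j) : ℝ) : ℂ) *
          (((Real.exp (-(mu * τ * n)) : ℝ) : ℂ) * HN L τ (κ j) (p j) 0 n))
        = (((Real.exp (-(mu * τ * p j)) : ℝ) : ℂ) * ((Real.exp (mu * τ * p j) : ℝ) : ℂ)) *
          (x j * (((Real.exp (-(mu * τ * n)) : ℝ) : ℂ) * HN L τ (κ j) (p j) 0 n)) := by ring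
      _ = _ := by rw [hc]; ring

end series

/-- Finite exponential sums (the function `T` and its transform). -/
theorem pair_fin {ι : Type*} (s : Finset ι) (τ : ℝ) (hτ : 0 < τ) (a : ι → ℂ) (th : ι → ℝ) :
    Pair (fun n => Real.exp (-(mu * τ * n)) * ∑ k ∈ s, a k * cexp (I * th k * n))
      (fun n => Real.exp (-(mu * τ * n)) * ∑ k ∈ s, a k * NF τ 0 n (th k)) := by
  have h := Pair.sum s (G := fun k n => a k * cexp (I * mu * wt τ (th k) * n))
    (H := fun k n => a k * (I / wt τ (th k) * cexp (-(I * mu * n / wt τ (th k)))))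
    (fun k _ => (pair_one (wt τ (th k)) (by rw [wt_im]; exact hτ)).smul (a k))
  refine h.congr (fun n _ => ?_) (fun n _ => ?_)
  · rw [Finset.mul_sum]
    refine Finset.sum_congr rfl fun k _ => ?_
    rw [wt_exp, Complex.exp_add, Complex.ofReal_exp]
    ring
  · rw [Finset.mul_sum]
    refine Finset.sum_congr rfl fun k _ => ?_
    have e2 : cexp (-(I * mu * n / wt τ (th k))) =
        cexp (zz τ (th k) * n) * (Real.exp (-(mu * τ * n)) : ℝ) := by
      rw [Complex.ofReal_exp, ← Complex.exp_add]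
      congr 1
      unfold zz
      push_cast
      ring
    rw [e2]
    unfold NF
    rw [pow_zero, mul_one]
    ring

theorem norm_fin_le {ι : Type*} (s : Finset ι) (τ L : ℝ) (hτ : 0 < τ) (a : ι → ℂ) (th : ι → ℝ)
    (hth : ∀ k ∈ s, |th k| ≤ L) (m : ℕ) (n : ℝ)
    (hm : ((m : ℝ) + 1) * ((L / mu) ^ 2 + τ ^ 2) ≤ 2 * (mu * τ * n)) :
    ‖∑ k ∈ s, a k * NF τ m n (th k)‖ ≤ (∑ k ∈ s, ‖a k‖) * BD τ L m n := by
  refine (norm_sum_le _ _).trans ?_
  rw [Finset.sum_mul]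
  refine Finset.sum_le_sum fun k hk => ?_
  rw [norm_mul]
  exact mul_le_mul_of_nonneg_left (norm_NF_le τ L (th k) hτ (hth k hk) m n hm) (norm_nonneg _)

theorem fin_hasDerivAt {ι : Type*} (s : Finset ι) (τ : ℝ) (a : ι → ℂ) (th : ι → ℝ)
    (m : ℕ) (n : ℝ) : HasDerivAt (fun n : ℝ => ∑ k ∈ s, a k * NF τ m n (th k))
      (∑ k ∈ s, a k * NF τ (m + 1) n (th k)) n := by
  have := HasDerivAt.fun_sum (u := s) (A := fun k n => a k * NF τ m n (th k))
    (A' := fun k => a k * NF τ (m + 1) n (th k)) (x := n)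
    (fun k _ => (NF_hasDerivAt τ m n (th k)).const_mul (a k))
  exact this

end CE48
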