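import Mathlib
import Pool.Agent.Helper48.CE.Lag

/-!
# The Fourier pairs of Laguerre functions
-/

open MeasureTheory Complex Filter Topology
open scoped Nat

namespace CE48

/-- The circle of radius `1/2`. -/
noncomputable def tau (θ : ℝ) : ℂ := (1 / 2 : ℂ) * cexp (I * θ)

theorem tau_norm (θ : ℝ) : ‖tau θ‖ = 1 / 2 := by
  unfold tau
  rw [norm_mul, mul_comm I, Complex.norm_exp_ofReal_mul_I]
  simp

theorem tau_ne (θ : ℝ) : tau θ ≠ 0 := by
  rw [← norm_pos_iff, tau_norm]
  norm_num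

theorem tau_cont : Continuous tau := by
  unfold tau
  fun_prop

theorem one_sub_tau (θ : ℝ) : (1 : ℝ) / 2 ≤ ‖1 - tau θ‖ := by
  have h := norm_sub_norm_le (1 : ℂ) (tau θ)
  rw [tau_norm, norm_one] at h
  linarith

theorem one_add_tau (θ : ℝ) : (1 : ℝ) / 2 ≤ ‖1 + tau θ‖ := by
  have h := norm_sub_norm_le (1 : ℂ) (-(tau θ))
  rw [norm_neg, tau_norm, norm_one, sub_neg_eq_add] at h
  linarith

theorem one_sub_tau_ne (θ : ℝ) : 1 - tau θ ≠ 0 := by
  rw [← norm_pos_iff]
  have := one_sub_tau θ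
  linarith

theorem one_add_tau_ne (θ : ℝ) : 1 + tau θ ≠ 0 := by
  rw [← norm_pos_iff]
  have := one_add_tau θ
  linarith

/-- Lebesgue measure on `(0, 2π]`. -/
noncomputable def nuc : Measure ℝ := volume.restrict (Set.Ioc 0 (2 * Real.pi))

instance : IsFiniteMeasure nuc := by
  unfold nuc
  infer_instance

theorem int_exp (j : ℤ) : ∫ θ, cexp (I * j * θ) ∂nuc = if j = 0 then (2 * Real.pi : ℂ) else 0 := by
  unfold nuc
  rw [← intervalIntegral.integral_of_le (by positivity)]
  split_ifs with h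
  · subst h
    simp
  · have hj : I * (j : ℂ) ≠ 0 := mul_ne_zero I_ne_zero (by exact_mod_cast h)
    rw [integral_exp_mul_complex hj]
    have e1 : cexp (I * j * ((2 * Real.pi : ℝ) : ℂ)) = 1 := by
      have : I * j * ((2 * Real.pi : ℝ) : ℂ) = j * (2 * Real.pi * I) := by
        push_cast
        ring
      rw [this, Complex.exp_int_mul_two_pi_mul_I]
    rw [e1]
    simp

theorem tau_pow (k m : ℕ) (θ : ℝ) :
    (tau θ ^ k)⁻¹ * tau θ ^ m =
      ((1 / 2 : ℂ) ^ m / (1 / 2 : ℂ) ^ k) * cexp (I * ((m : ℤ) - (k : ℤ) : ℤ) * θ) := by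
  unfold tau
  rw [mul_pow, mul_pow, ← Complex.exp_nat_mul, ← Complex.exp_nat_mul, mul_inv, ← Complex.exp_neg]
  have e : cexp (I * ((m : ℤ) - (k : ℤ) : ℤ) * θ) =
      cexp (-((k : ℂ) * (I * θ))) * cexp ((m : ℂ) * (I * θ)) := by
    rw [← Complex.exp_add]
    congr 1
    push_cast
    ring
  rw [e]
  ring

/-- Extraction of a coefficient. -/
theorem coef (a : ℕ → ℂ) (F : ℝ → ℂ) (k : ℕ) (hF : ∀ θ, HasSum (fun m => tau θ ^ m * a m) (F θ))
    (hs : Summable fun m => (1 / 2 : ℝ) ^ m * ‖a m‖) :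
    ∫ θ, (tau θ ^ k)⁻¹ * F θ ∂nuc = 2 * Real.pi * a k := by
  have hint : ∀ m : ℕ, Integrable (fun θ => (tau θ ^ k)⁻¹ * (tau θ ^ m * a m)) nuc := by
    intro m
    have hc : Continuous (fun θ => (tau θ ^ k)⁻¹ * (tau θ ^ m * a m)) := by
      refine Continuous.mul (Continuous.inv₀ (tau_cont.pow k) fun θ => pow_ne_zero _ (tau_ne θ)) ?_
      exact (tau_cont.pow m).mul continuous_const
    have h1 : IntegrableOn (fun θ => (tau θ ^ k)⁻¹ * (tau θ ^ m * a m))
        (Set.Icc 0 (2 * Real.pi)) volume := hc.continuousOn.integrableOn_Icc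
    exact h1.mono_set Set.Ioc_subset_Icc_self
  have hnorm : ∀ m θ, ‖(tau θ ^ k)⁻¹ * (tau θ ^ m * a m)‖ = 2 ^ k * ((1 / 2 : ℝ) ^ m * ‖a m‖) := by
    intro m θ
    rw [norm_mul, norm_mul, norm_inv, norm_pow, norm_pow, tau_norm]
    rw [← inv_pow]
    norm_num
  have hsum : Summable fun m => ∫ θ, ‖(tau θ ^ k)⁻¹ * (tau θ ^ m * a m)‖ ∂nuc := by
    simp_rw [hnorm]
    simp only [integral_const, smul_eq_mul]
    exact (hs.mul_left _).mul_left _
  have h := hasSum_integral_of_summable_integral_norm hint hsum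
  have e1 : ∀ m : ℕ, ∫ θ, (tau θ ^ k)⁻¹ * (tau θ ^ m * a m) ∂nuc =
      if m = k then 2 * Real.pi * a k else 0 := by
    intro m
    have : (fun θ => (tau θ ^ k)⁻¹ * (tau θ ^ m * a m)) =
        fun θ : ℝ => (((1 / 2 : ℂ) ^ m / (1 / 2 : ℂ) ^ k) * a m) *
          cexp (I * ((m : ℤ) - (k : ℤ) : ℤ) * θ) := by
      funext θ
      rw [← mul_assoc, tau_pow]
      ring
    rw [this, integral_const_mul, int_exp]
    split_ifs with h1 h2 h2
    · subst h2
      field_simp
    · exfalso
      apply h2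
      omega
    · exfalso
      apply h1
      omega
    · simp
  have e2 : (fun θ => ∑' m, (tau θ ^ k)⁻¹ * (tau θ ^ m * a m)) =
      fun θ => (tau θ ^ k)⁻¹ * F θ := by
    funext θ
    exact ((hF θ).mul_left _).tsum_eq
  simp_rw [e1] at h
  rw [e2] at h
  exact h.unique (hasSum_ite_eq k _)

theorem lag_summable (X : ℂ) : Summable fun m => (1 / 2 : ℝ) ^ m * ‖lag m X‖ := by
  have h := (lag_gen X (1 / 2) (by norm_num)).summable.norm
  refine h.congr fun m => ?_
  rw [norm_mul, norm_pow]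
  norm_num

/-- The parameter `w = i (1+t)/(1-t)` on the circle. -/
noncomputable def wc (θ : ℝ) : ℂ := I * (1 + tau θ) / (1 - tau θ)

/-- The coefficient on the circle. -/
noncomputable def cc (k : ℕ) (θ : ℝ) : ℂ :=
  (2 * Real.pi : ℂ)⁻¹ * ((tau θ ^ k)⁻¹ * (1 - tau θ)⁻¹)

theorem wc_ne (θ : ℝ) : wc θ ≠ 0 := by
  unfold wc
  exact div_ne_zero (mul_ne_zero I_ne_zero (one_add_tau_ne θ)) (one_sub_tau_ne θ)

theorem wc_cont : Continuous wc := by
  unfold wc
  exact Continuous.div (continuous_const.mul (continuous_const.add tau_cont))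
    (continuous_const.sub tau_cont) one_sub_tau_ne

theorem cc_cont (k : ℕ) : Continuous (cc k) := by
  unfold cc
  refine continuous_const.mul (Continuous.mul ?_ ?_)
  · exact Continuous.inv₀ (tau_cont.pow k) fun θ => pow_ne_zero _ (tau_ne θ)
  · exact Continuous.inv₀ (continuous_const.sub tau_cont) one_sub_tau_ne

theorem wc_norm (θ : ℝ) : ‖wc θ‖ ≤ 3 := by
  unfold wc
  rw [norm_div, norm_mul, norm_I, one_mul]
  have h1 : ‖1 + tau θ‖ ≤ 3 / 2 := by
    refine (norm_add_le _ _).trans ?_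
    rw [tau_norm, norm_one]
    norm_num
  have h2 := one_sub_tau θ
  rw [div_le_iff₀ (by linarith)]
  linarith

theorem wc_im (θ : ℝ) : (1 / 3 : ℝ) ≤ (wc θ).im := by
  unfold wc
  have h1 := one_sub_tau_ne θ
  have hn : Complex.normSq (1 - tau θ) ≠ 0 := by
    simpa [Complex.normSq_eq_zero] using h1
  have hn2 : (0 : ℝ) < Complex.normSq (1 - tau θ) := Complex.normSq_pos.2 h1
  have e : (I * (1 + tau θ) / (1 - tau θ)).im =
      (1 - ‖tau θ‖ ^ 2) / Complex.normSq (1 - tau θ) := by
    have h2 : I * (1 + tau θ) / (1 - tau θ) =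
        (I * (1 + tau θ) * (starRingEnd ℂ) (1 - tau θ)) / (Complex.normSq (1 - tau θ) : ℂ) := by
      have hc : (starRingEnd ℂ) (1 - tau θ) ≠ 0 := (map_ne_zero _).2 h1
      rw [← Complex.mul_conj]
      field_simp
    rw [h2, Complex.div_ofReal_im]
    congr 1
    rw [← Complex.normSq_eq_norm_sq, Complex.normSq_apply]
    simp [Complex.mul_im, Complex.mul_re]
    ring
  rw [e, tau_norm, le_div_iff₀ hn2]
  have h3 : Complex.normSq (1 - tau θ) ≤ (3 / 2) ^ 2 := by
    rw [Complex.normSq_eq_norm_sq]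
    refine pow_le_pow_left₀ (norm_nonneg _) ?_ 2
    refine (norm_sub_le _ _).trans ?_
    rw [tau_norm, norm_one]
    norm_num
  linarith

/-- **Laguerre functions form Fourier pairs.** -/
theorem pair_lag (k : ℕ) :
    Pair (fun n => lag k (2 * mu * n) * cexp (-(mu * n)))
      (fun n => (-1) ^ k * lag k (2 * mu * n) * cexp (-(mu * n))) := by
  have hci : Integrable (cc k) nuc := by
    have h1 : IntegrableOn (cc k) (Set.Icc 0 (2 * Real.pi)) volume :=
      (cc_cont k).continuousOn.integrableOn_Icc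
    exact h1.mono_set Set.Ioc_subset_Icc_self
  have h := pair_gpr nuc (cc k) wc hci wc_cont.measurable 3 (1 / 3) wc_norm (by norm_num) wc_im
  have hpi : (2 * Real.pi : ℂ) ≠ 0 := by
    have : (Real.pi : ℂ) ≠ 0 := by exact_mod_cast Real.pi_ne_zero
    exact mul_ne_zero two_ne_zero this
  refine h.congr (fun n _ => ?_) (fun n _ => ?_)
  · unfold gpr
    have e : (fun θ => cc k θ * cexp (I * mu * wc θ * n)) =
        fun θ => ((2 * Real.pi : ℂ)⁻¹ * cexp (-(mu * n))) * ((tau θ ^ k)⁻¹ *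
          ((1 - tau θ)⁻¹ * cexp (-(2 * mu * n) * tau θ / (1 - tau θ)))) := by
      funext θ
      have h1 := one_sub_tau_ne θ
      have e1 : I * mu * wc θ * n = -(mu * n) + -(2 * mu * n) * tau θ / (1 - tau θ) := by
        unfold wc
        have : I * mu * (I * (1 + tau θ) / (1 - tau θ)) * n =
            (I ^ 2) * mu * n * (1 + tau θ) / (1 - tau θ) := by ring
        rw [this, I_sq]
        field_simp
        ring
      rw [e1, Complex.exp_add]
      unfold cc
      ring
    rw [e, integral_const_mul, coef (fun m => lag m (2 * mu * n)) _ k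
      (fun θ => lag_gen _ _ (by rw [tau_norm]; norm_num)) (lag_summable _)]
    field_simp
  · unfold hpr
    have e : (fun θ => cc k θ * (I / wc θ * cexp (-(I * mu * n / wc θ)))) =
        fun θ => ((2 * Real.pi : ℂ)⁻¹ * cexp (-(mu * n))) * ((tau θ ^ k)⁻¹ *
          ((1 - -tau θ)⁻¹ * cexp (-(2 * mu * n) * (-tau θ) / (1 - -tau θ)))) := by
      funext θ
      have h1 := one_sub_tau_ne θ
      have h2 := one_add_tau_ne θ
      have e0 : I / wc θ = (1 - tau θ) / (1 + tau θ) := by
        unfold wc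
        have := I_ne_zero
        field_simp
      have e1 : -(I * mu * n / wc θ) = -(mu * n) + -(2 * mu * n) * (-tau θ) / (1 - -tau θ) := by
        have : -(I * mu * n / wc θ) = -(mu * n) * (I / wc θ) := by ring
        rw [this, e0, sub_neg_eq_add]
        field_simp
        ring
      rw [e1, Complex.exp_add, e0]
      unfold cc
      rw [sub_neg_eq_add]
      field_simp
    have hG : ∀ θ, HasSum (fun m => tau θ ^ m * ((-1) ^ m * lag m (2 * mu * n)))
        ((1 - -tau θ)⁻¹ * cexp (-(2 * mu * n) * (-tau θ) / (1 - -tau θ))) := by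
      intro θ
      have h3 := lag_gen (2 * mu * n) (-tau θ) (by rw [norm_neg, tau_norm]; norm_num)
      have e3 : (fun m => tau θ ^ m * ((-1) ^ m * lag m (2 * mu * n))) =
          fun m => (-tau θ) ^ m * lag m (2 * mu * n) := by
        funext m
        rw [neg_pow (tau θ)]
        ring
      rw [e3]
      exact h3
    rw [e, integral_const_mul, coef (fun m => (-1) ^ m * lag m (2 * mu * n)) _ k hG ?_]
    · field_simp
    · refine (lag_summable (2 * mu * n)).congr fun m => ?_
      rw [norm_mul, norm_pow, norm_neg, norm_one, one_pow, one_mul]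

end CE48
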